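import Pool.Agent.Helper52.WR.A1
import Pool.Agent.Helper87.WR.A3

/-!
# FB-B1 (choice of the shifts, with strips)
-/

set_option autoImplicit false

namespace Pool.Agent.Helper74.FB

open Finset
open Pool.Agent.Helper3.Thin (dig und off Lab GoodSet und_lt dig_und dig_und_high)

private lemma und_modEq {q : ℕ} (u v v' : ZMod q × ZMod q) :
    und u v ≡ und u v' [MOD q ^ 2] := by
  unfold und
  unfold Nat.ModEq
  rw [Nat.add_mul_mod_self_right, Nat.add_mul_mod_self_right]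

private lemma und_inj {q : ℕ} [Fact q.Prime] {u v v' : ZMod q × ZMod q}
    (h : und u v ≡ und u v' [MOD q ^ 4]) : v = v' := by
  have h1 : und u v = und u v' := Nat.ModEq.eq_of_lt_of_lt h (und_lt u v) (und_lt u v')
  have h2 := dig_und_high u v
  rw [h1, dig_und_high u v'] at h2
  exact h2.symm

/-- Mass of the weights counting the elements of `O`. -/
private lemma mass_O {q : ℕ} [Fact q.Prime] (O : Finset ℕ) (H : ℕ)
    (hO : ∀ r, (O.filter (fun o => o % q ^ 2 = r)).card ≤ H) (ν : ℕ) (u : ZMod q × ZMod q) :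
    ∑ v : ZMod q × ZMod q, (O.filter (fun o => (und u v + o) % q ^ 4 = ν % q ^ 4)).card ≤ H := by
  classical
  rw [← Finset.card_biUnion]
  · by_cases hne : ((univ : Finset (ZMod q × ZMod q)).biUnion
        (fun v => O.filter (fun o => (und u v + o) % q ^ 4 = ν % q ^ 4))).Nonempty
    · obtain ⟨o0, ho0⟩ := hne
      refine le_trans (Finset.card_le_card ?_) (hO (o0 % q ^ 2))
      intro o ho
      simp only [mem_biUnion, mem_univ, true_and, mem_filter] at ho ho0 ⊢
      obtain ⟨v, hoO, hv⟩ := ho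
      obtain ⟨v0, hoO0, hv0⟩ := ho0
      refine ⟨hoO, ?_⟩
      have h1 : und u v + o ≡ und u v0 + o0 [MOD q ^ 4] := by
        unfold Nat.ModEq
        rw [hv, hv0]
      have h2 : und u v + o ≡ und u v0 + o0 [MOD q ^ 2] :=
        h1.of_dvd (pow_dvd_pow q (by norm_num))
      exact Nat.ModEq.add_left_cancel (und_modEq u v v0) h2
    · rw [Finset.not_nonempty_iff_eq_empty] at hne
      rw [hne]
      simp
  · intro v _ v' _ hvv'
    rw [Function.onFun, Finset.disjoint_left]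
    intro o ho ho'
    rw [mem_filter] at ho ho'
    apply hvv'
    apply und_inj (u := u)
    have h1 : und u v + o ≡ und u v' + o [MOD q ^ 4] := by
      unfold Nat.ModEq
      rw [ho.2, ho'.2]
    exact Nat.ModEq.add_right_cancel' o h1

/-- The value of a digit pair. -/
private lemma val_inj {q : ℕ} [Fact q.Prime] {v v' : ZMod q × ZMod q}
    (h : v.2.val + v.1.val * q = v'.2.val + v'.1.val * q) : v = v' := by
  have hq : 0 < q := (Fact.out : q.Prime).pos
  haveI : NeZero q := ⟨hq.ne'⟩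
  have h2 : v.2.val < q := ZMod.val_lt _
  have h2' : v'.2.val < q := ZMod.val_lt _
  have e1 : v.1.val = v'.1.val := by
    have := congrArg (fun z => z / q) h
    rw [Nat.add_mul_div_right _ _ hq, Nat.add_mul_div_right _ _ hq, Nat.div_eq_of_lt h2,
      Nat.div_eq_of_lt h2'] at this
    simpa using this
  have e2 : v.2.val = v'.2.val := by
    rw [e1] at h
    exact Nat.add_right_cancel h
  exact Prod.ext (ZMod.val_injective q e1) (ZMod.val_injective q e2)

private lemma val_lt {q : ℕ} [Fact q.Prime] (v : ZMod q × ZMod q) :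
    v.2.val + v.1.val * q < q ^ 2 := by
  have hq : 0 < q := (Fact.out : q.Prime).pos
  haveI : NeZero q := ⟨hq.ne'⟩
  have h1 : v.1.val < q := ZMod.val_lt _
  have h2 : v.2.val < q := ZMod.val_lt _
  nlinarith

/-- Mass of the weights of the strips. -/
private lemma mass_strip {q : ℕ} [Fact q.Prime] (c m : ℕ) :
    ∑ v : ZMod q × ZMod q, (if c ≤ v.2.val + v.1.val * q ∧ v.2.val + v.1.val * q < c + m
      then (1 : ℝ) else 0) ≤ m := by
  classical
  rw [Finset.sum_boole]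
  have h : ((univ : Finset (ZMod q × ZMod q)).filter
      (fun v => c ≤ v.2.val + v.1.val * q ∧ v.2.val + v.1.val * q < c + m)).card ≤ m := by
    have h1 := Finset.card_le_card_of_injOn (s := (univ : Finset (ZMod q × ZMod q)).filter
      (fun v => c ≤ v.2.val + v.1.val * q ∧ v.2.val + v.1.val * q < c + m))
      (t := Ico c (c + m)) (fun v => v.2.val + v.1.val * q) (by
        intro v hv
        rw [Finset.mem_coe, mem_filter] at hv
        rw [Finset.mem_coe, mem_Ico]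
        exact hv.2) (by
        intro v _ v' _ hvv'
        exact val_inj hvv')
    rw [Nat.card_Ico] at h1
    omega
  exact_mod_cast h

/-- FB-B1 (choice of `τ`, with strips). -/
theorem tau_select2 {q : ℕ} [Fact q.Prime] (Γ : Finset (ZMod q × ZMod q)) (hΓ : Γ.card ≤ 3 * q)
    (T O : Finset ℕ) (S : ℕ) (hS : 0 < S) (H x : ℕ) (Mod : Finset ℕ)
    (hMod : ∀ m ∈ Mod, 0 < m ∧ Nat.Coprime q m)
    (hO : ∀ r, (O.filter (fun o => o % q ^ 2 = r)).card ≤ H)
    (hx : (2 * (q : ℝ) ^ 4 + ∑ m ∈ Mod, (m : ℝ)) * 2 ^ 13 < 2 ^ x) :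
    ∃ τ : ZMod q × ZMod q → ZMod q × ZMod q,
      (∀ ν : ℕ, (((Γ ×ˢ Γ) ×ˢ O).filter (fun y =>
        (und y.1.1 (y.1.2 + τ y.1.1) + y.2) % q ^ 4 = ν % q ^ 4)).card ≤ x * H) ∧
      (∀ m ∈ Mod, ∀ r : ℕ, ((((Γ ×ˢ Γ) ×ˢ ((range S) ×ˢ T)).filter (fun y =>
        (und y.1.1 (y.1.2 + τ y.1.1) + q ^ 4 * (S + y.2.1 + y.2.2)) % m = r % m)).card : ℝ)
          ≤ x * (T.card * ((q : ℝ) ^ 2 * S / m + 1))) ∧
      ∀ c m : ℕ, 1 ≤ m → ((Γ ×ˢ Γ).filter (fun p =>
        c ≤ (p.2 + τ p.1).2.val + (p.2 + τ p.1).1.val * q ∧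
          (p.2 + τ p.1).2.val + (p.2 + τ p.1).1.val * q < c + m)).card ≤ x * m := by
  classical
  let s : Finset ((ℕ ⊕ (Σ _ : ℕ, ℕ)) ⊕ (ℕ × ℕ)) :=
    ((range (q ^ 4)).disjSum (Mod.sigma (fun m => range m))).disjSum
      (range (q ^ 2) ×ˢ range (q ^ 2))
  let w : (ℕ ⊕ (Σ _ : ℕ, ℕ)) ⊕ (ℕ × ℕ) → ZMod q × ZMod q → ZMod q × ZMod q → ℝ := fun j u v =>
    Sum.elim (Sum.elim
      (fun ν => ((O.filter (fun o => (und u v + o) % q ^ 4 = ν % q ^ 4)).card : ℝ))
      (fun a => ((((range S) ×ˢ T).filter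
        (fun y => (und u v + q ^ 4 * (S + y.1 + y.2)) % a.1 = a.2 % a.1)).card : ℝ)))
      (fun p => if p.1 ≤ v.2.val + v.1.val * q ∧ v.2.val + v.1.val * q < p.1 + (p.2 + 1)
        then (1 : ℝ) else 0) j
  let M : (ℕ ⊕ (Σ _ : ℕ, ℕ)) ⊕ (ℕ × ℕ) → ℝ := fun j =>
    Sum.elim (Sum.elim (fun _ => (H : ℝ)) (fun a => T.card * ((q : ℝ) ^ 2 * S / a.1 + 1)))
      (fun p => ((p.2 + 1 : ℕ) : ℝ)) j
  have hw : ∀ j ∈ s, ∀ u v, 0 ≤ w j u v := by
    intro j _ u v
    rcases j with (ν | a) | p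
    · exact Nat.cast_nonneg _
    · exact Nat.cast_nonneg _
    · simp only [w, Sum.elim_inr]
      split_ifs <;> norm_num
  have hm : ∀ j ∈ s, ∀ u, ∑ v, w j u v ≤ M j := by
    intro j hj u
    rcases j with (ν | a) | p
    · have h := mass_O O H hO ν u
      have h' : (((∑ v : ZMod q × ZMod q,
          (O.filter (fun o => (und u v + o) % q ^ 4 = ν % q ^ 4)).card : ℕ)) : ℝ) ≤ (H : ℝ) := by
        exact_mod_cast h
      rw [Nat.cast_sum] at h'
      exact h'
    · have hj' : a ∈ Mod.sigma (fun m => range m) := by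
        simpa [s] using hj
      rw [mem_sigma] at hj'
      obtain ⟨hm0, hc⟩ := hMod a.1 hj'.1
      exact Pool.Agent.Helper87.WR.mass_bound T S a.1 hS hm0 hc a.2 u
    · exact mass_strip p.1 (p.2 + 1)
  have hxs : (s.card : ℝ) * 2 ^ 13 < 2 ^ x := by
    have : (s.card : ℝ) = 2 * (q : ℝ) ^ 4 + ∑ m ∈ Mod, (m : ℝ) := by
      simp only [s]
      rw [Finset.card_disjSum, Finset.card_disjSum, Finset.card_sigma, card_range,
        Finset.card_product, card_range]
      push_cast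
      simp only [card_range]
      ring
    rw [this]
    exact hx
  obtain ⟨τ, hτ⟩ := Pool.Agent.Helper52.WR.tau_exists Γ hΓ s w M x hw hm hxs
  refine ⟨τ, ?_, ?_, ?_⟩
  · intro ν
    have hq : 0 < q ^ 4 := pow_pos (Fact.out : q.Prime).pos 4
    have hmem : (Sum.inl (Sum.inl (ν % q ^ 4)) : (ℕ ⊕ (Σ _ : ℕ, ℕ)) ⊕ (ℕ × ℕ)) ∈ s := by
      simp only [s]
      rw [Finset.inl_mem_disjSum, Finset.inl_mem_disjSum, mem_range]
      exact Nat.mod_lt _ hq
    have h := hτ _ hmem
    simp only [w, M, Sum.elim_inl, Nat.mod_mod] at h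
    have hcard : (((Γ ×ˢ Γ) ×ˢ O).filter (fun y =>
        (und y.1.1 (y.1.2 + τ y.1.1) + y.2) % q ^ 4 = ν % q ^ 4)).card
        = ∑ u ∈ Γ, ∑ z ∈ Γ,
          (O.filter (fun o => (und u (z + τ u) + o) % q ^ 4 = ν % q ^ 4)).card := by
      rw [Finset.card_filter, Finset.sum_product, Finset.sum_product]
      refine Finset.sum_congr rfl fun u _ => Finset.sum_congr rfl fun z _ => ?_
      rw [Finset.card_filter]
    rw [hcard]
    have h' : (((∑ u ∈ Γ, ∑ z ∈ Γ,
          (O.filter (fun o => (und u (z + τ u) + o) % q ^ 4 = ν % q ^ 4)).card : ℕ)) : ℝ)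
        ≤ ((x * H : ℕ) : ℝ) := by
      push_cast
      exact h
    exact_mod_cast h'
  · intro m hmM r
    obtain ⟨hm0, hc⟩ := hMod m hmM
    have hmem : (Sum.inl (Sum.inr ⟨m, r % m⟩) : (ℕ ⊕ (Σ _ : ℕ, ℕ)) ⊕ (ℕ × ℕ)) ∈ s := by
      simp only [s]
      rw [Finset.inl_mem_disjSum, Finset.inr_mem_disjSum, mem_sigma]
      exact ⟨hmM, mem_range.mpr (Nat.mod_lt _ hm0)⟩
    have h := hτ _ hmem
    simp only [w, M, Sum.elim_inl, Sum.elim_inr, Nat.mod_mod] at h
    have hcard : (((Γ ×ˢ Γ) ×ˢ ((range S) ×ˢ T)).filter (fun y =>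
        (und y.1.1 (y.1.2 + τ y.1.1) + q ^ 4 * (S + y.2.1 + y.2.2)) % m = r % m)).card
        = ∑ u ∈ Γ, ∑ z ∈ Γ, (((range S) ×ˢ T).filter
          (fun y => (und u (z + τ u) + q ^ 4 * (S + y.1 + y.2)) % m = r % m)).card := by
      rw [Finset.card_filter, Finset.sum_product, Finset.sum_product]
      refine Finset.sum_congr rfl fun u _ => Finset.sum_congr rfl fun z _ => ?_
      rw [Finset.card_filter]
    rw [hcard]
    push_cast
    exact h
  · have key : ∀ c m : ℕ, c < q ^ 2 → 1 ≤ m → m ≤ q ^ 2 → ((Γ ×ˢ Γ).filter (fun p =>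
        c ≤ (p.2 + τ p.1).2.val + (p.2 + τ p.1).1.val * q ∧
          (p.2 + τ p.1).2.val + (p.2 + τ p.1).1.val * q < c + m)).card ≤ x * m := by
      intro c m hc hm1 hm2
      have hmem : (Sum.inr (c, m - 1) : (ℕ ⊕ (Σ _ : ℕ, ℕ)) ⊕ (ℕ × ℕ)) ∈ s := by
        simp only [s]
        rw [Finset.inr_mem_disjSum, mem_product]
        exact ⟨mem_range.mpr hc, mem_range.mpr (by omega)⟩
      have h := hτ _ hmem
      simp only [w, M, Sum.elim_inr, Nat.sub_add_cancel hm1] at h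
      have hcard : ((((Γ ×ˢ Γ).filter (fun p =>
          c ≤ (p.2 + τ p.1).2.val + (p.2 + τ p.1).1.val * q ∧
            (p.2 + τ p.1).2.val + (p.2 + τ p.1).1.val * q < c + m)).card : ℕ) : ℝ)
          = ∑ u ∈ Γ, ∑ z ∈ Γ, if c ≤ (z + τ u).2.val + (z + τ u).1.val * q ∧
            (z + τ u).2.val + (z + τ u).1.val * q < c + m then (1 : ℝ) else 0 := by
        rw [Finset.card_filter, Finset.sum_product]
        push_cast
        rfl
      have h' : ((((Γ ×ˢ Γ).filter (fun p =>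
          c ≤ (p.2 + τ p.1).2.val + (p.2 + τ p.1).1.val * q ∧
            (p.2 + τ p.1).2.val + (p.2 + τ p.1).1.val * q < c + m)).card : ℕ) : ℝ)
          ≤ ((x * m : ℕ) : ℝ) := by
        rw [hcard]
        push_cast
        exact h
      exact_mod_cast h'
    intro c m hm1
    by_cases hc : c < q ^ 2
    · by_cases hm2 : m ≤ q ^ 2
      · exact key c m hc hm1 hm2
      · push Not at hm2
        have hq2 : 1 ≤ q ^ 2 := Nat.one_le_pow _ _ (Fact.out : q.Prime).pos
        refine le_trans (Finset.card_le_card ?_) (le_trans (key c (q ^ 2) hc hq2 le_rfl)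
          (Nat.mul_le_mul_left _ hm2.le))
        intro p hp
        rw [mem_filter] at hp ⊢
        exact ⟨hp.1, hp.2.1, lt_of_lt_of_le (val_lt _) (Nat.le_add_left _ _)⟩
    · push Not at hc
      rw [Finset.filter_false_of_mem]
      · simp
      · intro p _ hp
        exact absurd (lt_of_lt_of_le (val_lt (p.2 + τ p.1)) hc) (not_lt.mpr hp.1)

end Pool.Agent.Helper74.FB
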