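import Pool.Agent.Helper74.FB.K5Data

/-!
# Positivity of the quadratic form for five-dimensional submanifolds
-/

noncomputable section

namespace FBM5

open FBR

theorem ev2_const (r c : ℝ) (k : ℤ) : ev2 r c [[k]] = k := by
  simp [ev2, ev1, evL, ev0]

theorem ev2_U (r c : ℝ) : ev2 r c U = c - r := by
  simp [U, ev2, ev1, evL, ev0]
  ring

theorem ev2_comb (r c : ℝ) (l : List (List (List ℤ))) (k0 k1 k2 k3 k4 : ℤ) :
    ev2 r c (comb l k0 k1 k2 k3 k4) = k0 * ev2 r c (cf3 l 0) + (c - r) * (k1 * ev2 r c (cf3 l 1)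
      + (c - r) * (k2 * ev2 r c (cf3 l 2) + (c - r) * (k3 * ev2 r c (cf3 l 3)
      + (c - r) * (k4 * ev2 r c (cf3 l 4))))) := by
  simp only [comb, ev2_add, ev2_mul, ev2_const, ev2_U]

theorem ev3_eq (r q c : ℝ) : ∀ l : List (List (List ℤ)), l.length ≤ 5 →
    ev3 r q c l = ev2 r c (cf3 l 0) + q * (ev2 r c (cf3 l 1) + q * (ev2 r c (cf3 l 2)
      + q * (ev2 r c (cf3 l 3) + q * ev2 r c (cf3 l 4)))) := by
  intro l hl
  have hz : ev2 r c [] = 0 := by simp [ev2, evL]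
  match l, hl with
  | [], _ => simp [ev3, evL, cf3, hz]
  | [a], _ => simp [ev3, evL, cf3, hz]
  | [a, b], _ => simp [ev3, evL, cf3, hz]
  | [a, b, d], _ => simp [ev3, evL, cf3, hz]
  | [a, b, d, e], _ => simp [ev3, evL, cf3, hz]
  | [a, b, d, e, f], _ => simp [ev3, evL, cf3]
  | _ :: _ :: _ :: _ :: _ :: _ :: _, h =>
    simp only [List.length_cons] at h
    omega

theorem lenP : P3l.length ≤ 5 := by decide +kernel
theorem lenQ : Q3l.length ≤ 5 := by decide +kernel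
theorem P3_2 : cf3 P3l 2 = [] := rfl
theorem P3_3 : cf3 P3l 3 = [] := rfl
theorem P3_4 : cf3 P3l 4 = [] := rfl

theorem P3_nonneg {r q c : ℝ} (hr : 0 < r) (hq : 0 < q) (h : r + q ≤ c) (hc : c ≤ 1) :
    0 ≤ ev3 r q c P3 := by
  have hz : ev2 r c [] = 0 := by simp [ev2, evL]
  have h0 := nonnegP0 hr.le (by linarith : r ≤ c) hc
  have h1 := nonnegP1 hr.le (by linarith : r ≤ c) hc
  rw [ev2_comb] at h0 h1
  rw [P3_eq, ev3_eq r q c P3l lenP, P3_2, P3_3, P3_4, hz]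
  rw [P3_2, P3_3, P3_4, hz] at h0 h1
  push_cast at h0 h1
  have hu : 0 < c - r := by linarith
  have hv : 0 ≤ c - r - q := by linarith
  have h3 : 0 ≤ (c - r) * (ev2 r c (cf3 P3l 0) + q * ev2 r c (cf3 P3l 1)) := by
    have h4 := mul_nonneg hv h0
    have h5 := mul_nonneg hq.le h1
    nlinarith
  have h6 := (mul_nonneg_iff_of_pos_left hu).mp h3
  linarith

theorem Q3_nonneg {r q c : ℝ} (hr : 0 < r) (hq : 0 < q) (h : r + q ≤ c) (hc : c ≤ 1) :
    0 ≤ ev3 r q c Q3 := by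
  have h0 := nonnegQ0 hr.le (by linarith : r ≤ c) hc
  have h1 := nonnegQ1 hr.le (by linarith : r ≤ c) hc
  have h2 := nonnegQ2 hr.le (by linarith : r ≤ c) hc
  have h3 := nonnegQ3 hr.le (by linarith : r ≤ c) hc
  have h4 := nonnegQ4 hr.le (by linarith : r ≤ c) hc
  rw [ev2_comb] at h0 h1 h2 h3 h4
  rw [Q3_eq, ev3_eq r q c Q3l lenQ]
  generalize ev2 r c (cf3 Q3l 0) = a0 at *
  generalize ev2 r c (cf3 Q3l 1) = a1 at *
  generalize ev2 r c (cf3 Q3l 2) = a2 at *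
  generalize ev2 r c (cf3 Q3l 3) = a3 at *
  generalize ev2 r c (cf3 Q3l 4) = a4 at *
  push_cast at h0 h1 h2 h3 h4
  have hu : 0 < c - r := by linarith
  have hv : 0 ≤ c - r - q := by linarith
  have key : 12 * (c - r) ^ 4 * (a0 + q * (a1 + q * (a2 + q * (a3 + q * a4))))
      = (c - r - q) ^ 4 * (12 * a0 + (c - r) * (0 * a1 + (c - r) * (0 * a2 + (c - r) * (0 * a3
          + (c - r) * (0 * a4)))))
        + 4 * q * (c - r - q) ^ 3 * (12 * a0 + (c - r) * (3 * a1 + (c - r) * (0 * a2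
          + (c - r) * (0 * a3 + (c - r) * (0 * a4)))))
        + 6 * q ^ 2 * (c - r - q) ^ 2 * (12 * a0 + (c - r) * (6 * a1 + (c - r) * (2 * a2
          + (c - r) * (0 * a3 + (c - r) * (0 * a4)))))
        + 4 * q ^ 3 * (c - r - q) * (12 * a0 + (c - r) * (9 * a1 + (c - r) * (6 * a2
          + (c - r) * (3 * a3 + (c - r) * (0 * a4)))))
        + q ^ 4 * (12 * a0 + (c - r) * (12 * a1 + (c - r) * (12 * a2
          + (c - r) * (12 * a3 + (c - r) * (12 * a4))))) := by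
    ring
  have h5 : 0 ≤ 12 * (c - r) ^ 4 * (a0 + q * (a1 + q * (a2 + q * (a3 + q * a4)))) := by
    rw [key]
    positivity
  exact (mul_nonneg_iff_of_pos_left (by positivity)).mp h5

/-- `P` is positive. -/
theorem P_pos {r q c : ℝ} (hr : 0 < r) (hq : 0 < q) (h : r + q ≤ c) (hc : c ≤ 1) :
    0 < ev3 r q c Pl := by
  have h1 := P3_nonneg hr hq h hc
  rw [P3, ev3_add] at h1
  have h2 : ev3 r q c [[[0, 0, -1]]] = -r ^ 2 := by
    simp [ev3, ev2, ev1, evL, ev0]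
    ring
  rw [h2] at h1
  have : 0 < r ^ 2 := by positivity
  linarith

/-- The discriminant is positive. -/
theorem Q_pos {r q c : ℝ} (hr : 0 < r) (hq : 0 < q) (h : r + q ≤ c) (hc : c ≤ 1) :
    (1 + c) * ev3 r q c Ol ^ 2 < 4 * ev3 r q c Pl * ev3 r q c El := by
  have h1 := Q3_nonneg hr hq h hc
  rw [Q3, ev3_add, ev3_add, ev3_mul, ev3_mul, ev3_mul, ev3_mul] at h1
  have h2 : ev3 r q c [[[0, 0, -1]]] = -r ^ 2 := by
    simp [ev3, ev2, ev1, evL, ev0]
    ring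
  have h3 : ev3 r q c [[[4]]] = 4 := by
    simp [ev3, ev2, ev1, evL, ev0]
  have h4 : ev3 r q c [[[-1], [-1]]] = -(1 + c) := by
    simp [ev3, ev2, ev1, evL, ev0]
    ring
  rw [h2, h3, h4] at h1
  have : 0 < r ^ 2 := by positivity
  nlinarith

end FBM5
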