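import Mathlib

/-!
# The polynomial inequalities behind the case of four-dimensional submanifolds

On the region `0 < r`, `0 < q`, `r + q ≤ c ≤ 1` the coefficient `P` and the discriminant are
positive.  Both are polynomials of degree at most two in `q`, so it is enough to look at their
control polynomials in `(r, c)`, all of whose coefficients in `r, t = c - r, w = 1 - c` are
nonnegative.
-/

noncomputable section

namespace FBM4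

/-- Ten times the coefficient `P / r ^ 2`. -/
def Pp (r q c : ℝ) : ℝ :=
    58 + 24*c + (-60)*c^2 + (-6)*q + 20*q*c + (-357)*r + 576*r*c + 297*r*c^2 + (-172)*r*q +
    (-132)*r*q*c + 532*r^2 + (-3016)*r^2*c + 1380*r^2*c^2 + 1032*r^2*q + (-690)*r^2*q*c +
    1720*r^3 + (-1150)*r^3*c

/-- Ten times the coefficient `Ω / r`. -/
def Op (r q c : ℝ) : ℝ :=
    40 + (-12)*r + 640*r*c + 162*r*c^2 + (-360)*r*c^3 + (-252)*r*q + (-78)*r*q*c + 200*r*q*c^2 +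
    (-888)*r^2 + (-3649)*r^2*c + 3456*r^2*c^2 + 1485*r^2*c^3 + 1761*r^2*q + (-1720)*r^2*q*c +
    (-891)*r^2*q*c^2 + 4709*r^3 + 4630*r^3*c + (-17719)*r^3*c^2 + 6440*r^3*c^3 + (-5026)*r^3*q +
    9976*r^3*q*c + (-4140)*r^3*q*c^2 + (-10282)*r^4 + 18232*r^4*c + (-6900)*r^4*c^2

/-- Ten times the coefficient `E`. -/
def Ep (r q c : ℝ) : ℝ :=
    20 + 40*q*c + 80*r*c + (-80)*r*q + (-174)*r^2 + (-72)*r^2*c + 934*r^2*c^2 + 192*r^2*c^3 +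
    (-380)*r^2*c^4 + 30*r^2*q + (-564)*r^2*q*c + (-126)*r^2*q*c^2 + 260*r^2*q*c^3 + 833*r^3 +
    (-2040)*r^3*c + (-4382)*r^3*c^2 + 3648*r^3*c^3 + 1485*r^3*c^4 + 516*r^3*q + 2656*r^3*q*c +
    (-2236)*r^3*q*c^2 + (-1056)*r^3*q*c^3 + (-1064)*r^4 + 9196*r^4*c + 2028*r^4*c^2 +
    (-16588)*r^4*c^3 + 5980*r^4*c^4 + (-2408)*r^4*q + (-3646)*r^4*q*c + 10664*r^4*q*c^2 +
    (-4370)*r^4*q*c^3 + (-3096)*r^5 + (-4938)*r^5*c + 14104*r^5*c^2 + (-5750)*r^5*c^3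

/-- control polynomial, homogenised -/
def Pb0h (o r c : ℝ) : ℝ :=
    (58*o^6 + 24*o^5*c + (-60)*o^4*c^2) + r * ((-357)*o^5 + 576*o^4*c + 297*o^3*c^2) + r^2 *
    (532*o^4 + (-3016)*o^3*c + 1380*o^2*c^2) + r^3 * (1720*o^3 + (-1150)*o^2*c)

/-- expansion of `Pb0h` -/
def Pb0x (r t w : ℝ) : ℝ :=
    (58*w^6 + 372*t*w^5 + 930*t^2*w^4 + 1160*t^3*w^3 + 750*t^4*w^2 + 228*t^5*w + 22*t^6) + r *
    (15*w^5 + 651*t*w^4 + 2511*t^2*w^3 + 3777*t^3*w^2 + 2550*t^4*w + 648*t^5) + r^2 * (253*w^4 +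
    654*t*w^3 + 2355*t^2*w^2 + 3760*t^3*w + 1806*t^4) + r^3 * (1023*w^3 + 389*t*w^2 + 1120*t^2*w
    + 1754*t^3) + r^4 * (1061*w^2 + 20*t*w + 576*t^2) + r^5 * (338*w + 6*t) + r^6 * (4)

theorem Pb0h_eq (r t w : ℝ) : Pb0h (r + t + w) r (r + t) = Pb0x r t w := by
  unfold Pb0h Pb0x
  ring

theorem Pb0_pos {r c : ℝ} (hr : 0 < r) (ht : 0 < c - r) (hw : 0 ≤ 1 - c) :
    0 < Pb0h 1 r c := by
  have h := Pb0h_eq r (c - r) (1 - c)
  have e1 : r + (c - r) + (1 - c) = 1 := by ring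
  have e2 : r + (c - r) = c := by ring
  rw [e1, e2] at h
  rw [h]
  unfold Pb0x
  positivity

/-- control polynomial, homogenised -/
def Pb1h (o r c : ℝ) : ℝ :=
    (58*o^6 + 18*o^5*c + (-40)*o^4*c^2) + r * ((-351)*o^5 + 384*o^4*c + 165*o^3*c^2) + r^2 *
    (704*o^4 + (-1852)*o^3*c + 690*o^2*c^2) + r^3 * (688*o^3 + (-460)*o^2*c)

/-- expansion of `Pb1h` -/
def Pb1x (r t w : ℝ) : ℝ :=
    (58*w^6 + 366*t*w^5 + 920*t^2*w^4 + 1180*t^3*w^3 + 810*t^4*w^2 + 278*t^5*w + 36*t^6) + r *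
    (15*w^5 + 469*t*w^4 + 1731*t^2*w^3 + 2529*t^3*w^2 + 1666*t^4*w + 414*t^5) + r^2 * (253*w^4 +
    886*t*w^3 + 2085*t^2*w^2 + 2524*t^3*w + 1072*t^4) + r^3 * (1023*w^3 + 1427*t*w^2 +
    1500*t^2*w + 1096*t^3) + r^4 * (1061*w^2 + 702*t*w + 456*t^2) + r^5 * (338*w + 58*t) + r^6 *
    (4)

theorem Pb1h_eq (r t w : ℝ) : Pb1h (r + t + w) r (r + t) = Pb1x r t w := by
  unfold Pb1h Pb1x
  ring

theorem Pb1_pos {r c : ℝ} (hr : 0 < r) (ht : 0 < c - r) (hw : 0 ≤ 1 - c) :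
    0 < Pb1h 1 r c := by
  have h := Pb1h_eq r (c - r) (1 - c)
  have e1 : r + (c - r) + (1 - c) = 1 := by ring
  have e2 : r + (c - r) = c := by ring
  rw [e1, e2] at h
  rw [h]
  unfold Pb1x
  positivity

/-- control polynomial, homogenised -/
def Qb0h (o r c : ℝ) : ℝ :=
    (3040*o^13 + 1920*o^12*c + (-4800)*o^11*c^2) + r * ((-27600)*o^12 + 13440*o^11*c +
    18480*o^10*c^2 + 9600*o^9*c^3) + r^2 * (73088*o^11 + (-81648)*o^10*c + (-135936)*o^9*c^2 +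
    (-88272)*o^8*c^3 + 140668*o^7*c^4 + 34080*o^6*c^5 + (-38400)*o^5*c^6) + r^3 * (181296*o^10 +
    65512*o^9*c + 2375040*o^8*c^2 + (-1211236)*o^7*c^3 + (-1806816)*o^6*c^4 + 626796*o^5*c^5 +
    261360*o^4*c^6) + r^4 * ((-1659612)*o^9 + (-4495584)*o^8*c + (-8819425)*o^7*c^2 +
    17738088*o^6*c^3 + 2142490*o^5*c^4 + (-7153936)*o^4*c^5 + 662955*o^3*c^6) + r^5 *
    (9493040*o^8 + 25076122*o^7*c + (-3189372)*o^6*c^2 + (-81461040)*o^5*c^3 + 54262868*o^4*c^4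
    + 2565446*o^3*c^5 + (-3825360)*o^2*c^6) + r^6 * ((-32547577)*o^7 + (-71806880)*o^6*c +
    168854450*o^5*c^2 + 28680352*o^4*c^3 + (-159072417)*o^3*c^4 + 71343240*o^2*c^5 +
    (-8464000)*o*c^6) + r^7 * (82927268*o^6 + 18507304*o^5*c + (-424071172)*o^4*c^2 +
    509333120*o^3*c^3 + (-214681080)*o^2*c^4 + 29624000*o*c^5) + r^8 * ((-127020004)*o^5 +
    355191008*o^4*c + (-354547104)*o^3*c^2 + 147163200*o^2*c^3 + (-21160000)*o*c^4)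

/-- expansion of `Qb0h` -/
def Qb0x (r t w : ℝ) : ℝ :=
    (3040*w^13 + 41440*t*w^12 + 255360*t^2*w^11 + 943360*t^3*w^10 + 2332000*t^4*w^9 +
    4070880*t^5*w^8 + 5153280*t^6*w^7 + 4773120*t^7*w^6 + 3215520*t^8*w^5 + 1540000*t^9*w^4 +
    499840*t^10*w^3 + 99840*t^11*w^2 + 9760*t^12*w + 160*t^13) + r * (13840*w^12 + 192960*t*w^11
    + 1174800*t^2*w^10 + 4189600*t^3*w^9 + 9828000*t^4*w^8 + 16058880*t^5*w^7 + 18805920*t^6*w^6
    + 15940800*t^7*w^5 + 9723600*t^8*w^4 + 4168000*t^9*w^3 + 1193040*t^10*w^2 + 204960*t^11*w +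
    16000*t^12) + r^2 * (10688*w^11 + 241840*t*w^10 + 1644224*t^2*w^9 + 5676864*t^3*w^8 +
    11857276*t^4*w^7 + 16349092*t^5*w^6 + 15791340*t^6*w^5 + 11257364*t^7*w^4 + 6140084*t^8*w^3
    + 2500796*t^9*w^2 + 665444*t^10*w + 83100*t^11) + r^3 * (191696*w^10 + 1926120*t*w^9 +
    9894360*t^2*w^8 + 31808940*t^3*w^7 + 66506680*t^4*w^6 + 91353648*t^5*w^5 + 82380060*t^6*w^4
    + 48098060*t^7*w^3 + 17609760*t^8*w^2 + 3791600*t^9*w + 395812*t^10) + r^4 * (479884*w^9 +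
    2283636*t*w^8 + 3042635*t^2*w^7 + 2313353*t^3*w^6 + 15239017*t^4*w^5 + 45505283*t^5*w^4 +
    58303552*t^6*w^3 + 36798184*t^7*w^2 + 11043564*t^8*w + 1208196*t^9) + r^5 * (1802060*w^8 +
    9733276*t*w^7 + 27686221*t^2*w^6 + 42999038*t^3*w^5 + 40515413*t^4*w^4 + 34892024*t^5*w^3 +
    29569440*t^6*w^2 + 13930144*t^7*w + 1981348*t^8) + r^6 * (5000328*w^7 + 12497404*t*w^6 +
    13465685*t^2*w^5 + 32448089*t^3*w^4 + 42625356*t^4*w^3 + 24371324*t^5*w^2 + 10040224*t^6*w +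
    1814776*t^7) + r^7 * (5861416*w^6 + 27079596*t*w^5 + 5561931*t^2*w^4 + 14600460*t^3*w^3 +
    28950664*t^4*w^2 + 11213232*t^5*w + 1115832*t^6) + r^8 * (2641516*w^5 + 47813432*t*w^4 +
    24125200*t^2*w^3 + 22780568*t^3*w^2 + 15961420*t^4*w + 753092*t^5) + r^9 * (383164*w^4 +
    30232288*t*w^3 + 16331000*t^2*w^2 + 13090064*t^3*w + 580356*t^4) + r^10 * (296800*w^3 +
    7298760*t*w^2 + 5525124*t^2*w + 317188*t^3) + r^11 * (195568*w^2 + 1031024*t*w + 105916*t^2)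
    + r^12 * (15488*w + 18752*t)

theorem Qb0h_eq (r t w : ℝ) : Qb0h (r + t + w) r (r + t) = Qb0x r t w := by
  unfold Qb0h Qb0x
  ring

theorem Qb0_pos {r c : ℝ} (hr : 0 < r) (ht : 0 < c - r) (hw : 0 ≤ 1 - c) :
    0 < Qb0h 1 r c := by
  have h := Qb0h_eq r (c - r) (1 - c)
  have e1 : r + (c - r) + (1 - c) = 1 := by ring
  have e2 : r + (c - r) = c := by ring
  rw [e1, e2] at h
  rw [h]
  unfold Qb0x
  positivity

/-- control polynomial, homogenised -/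
def Qb1h (o r c : ℝ) : ℝ :=
    (3040*o^13 + 1680*o^12*c + 640*o^11*c^2 + 1920*o^10*c^3 + (-4800)*o^9*c^4) + r *
    ((-27360)*o^12 + 1920*o^11*c + (-18960)*o^10*c^2 + 65280*o^9*c^3 + 23760*o^8*c^4) + r^2 *
    (79168*o^11 + (-15624)*o^10*c + (-132472)*o^9*c^2 + (-352544)*o^8*c^3 + 171832*o^7*c^4 +
    13440*o^6*c^5 + (-12800)*o^5*c^6) + r^3 * (150792*o^10 + 12740*o^9*c + 1763924*o^8*c^2 +
    (-998340)*o^7*c^3 + (-675780)*o^6*c^4 + 201408*o^5*c^5 + 84480*o^4*c^6) + r^4 *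
    ((-1661184)*o^9 + (-2477784)*o^8*c + (-1311622)*o^7*c^2 + 6889320*o^6*c^3 + 126940*o^5*c^4 +
    (-2244088)*o^4*c^5 + 193986*o^3*c^6) + r^5 * (8326868*o^8 + 6471574*o^7*c +
    (-9967340)*o^6*c^2 + (-22925776)*o^5*c^3 + 19031588*o^4*c^4 + 220586*o^3*c^5 +
    (-1077780)*o^2*c^6) + r^6 * ((-21694892)*o^7 + (-15434648)*o^6*c + 80796760*o^5*c^2 +
    (-21382356)*o^4*c^3 + (-39890948)*o^3*c^4 + 19819100*o^2*c^5 + (-2116000)*o*c^6) + r^7 *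
    (43071376*o^6 + (-15905928)*o^5*c + (-162226280)*o^4*c^2 + 214831224*o^3*c^3 +
    (-92481160)*o^2*c^4 + 12696000*o*c^5) + r^8 * ((-60669008)*o^5 + 173907136*o^4*c +
    (-176412848)*o^3*c^2 + 73739840*o^2*c^3 + (-10580000)*o*c^4)

/-- expansion of `Qb1h` -/
def Qb1x (r t w : ℝ) : ℝ :=
    (3040*w^13 + 41200*t*w^12 + 257920*t^2*w^11 + 989280*t^3*w^10 + 2592800*t^4*w^9 +
    4892880*t^5*w^8 + 6816000*t^6*w^7 + 7064640*t^7*w^6 + 5417760*t^8*w^5 + 3014800*t^9*w^4 +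
    1171840*t^10*w^3 + 296800*t^11*w^2 + 42720*t^12*w + 2480*t^13) + r * (13840*w^12 +
    189440*t*w^11 + 1164240*t^2*w^10 + 4333280*t^3*w^9 + 10996080*t^4*w^8 + 20125440*t^5*w^7 +
    27226080*t^6*w^6 + 27337920*t^7*w^5 + 20130480*t^8*w^4 + 10554880*t^9*w^3 + 3726800*t^10*w^2
    + 793440*t^11*w + 76880*t^12) + r^2 * (10688*w^11 + 215864*t*w^10 + 1508568*t^2*w^9 +
    5870368*t^3*w^8 + 15220248*t^4*w^7 + 28511000*t^5*w^6 + 39548904*t^6*w^5 + 40137608*t^7*w^4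
    + 28733768*t^8*w^3 + 13637008*t^9*w^2 + 3829792*t^10*w + 480120*t^11) + r^3 * (191696*w^10 +
    1909156*t*w^9 + 9227648*t^2*w^8 + 27613324*t^3*w^7 + 55888392*t^4*w^6 + 80157820*t^5*w^5 +
    83312176*t^6*w^4 + 62354708*t^7*w^3 + 32052344*t^8*w^2 + 10092992*t^9*w + 1455744*t^10) +
    r^4 * (479884*w^9 + 2935672*t*w^8 + 9596366*t^2*w^7 + 24493326*t^3*w^6 + 50993250*t^4*w^5 +
    77494946*t^5*w^4 + 78532276*t^6*w^3 + 49760456*t^7*w^2 + 17889432*t^8*w + 2806808*t^9) + r^5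
    * (1802060*w^8 + 10589070*t*w^7 + 31711848*t^2*w^6 + 59418086*t^3*w^5 + 77618028*t^4*w^4 +
    76776672*t^5*w^3 + 54920836*t^6*w^2 + 23457416*t^7*w + 4188472*t^8) + r^6 * (5000328*w^7 +
    17547394*t*w^6 + 35634578*t^2*w^5 + 62774076*t^3*w^4 + 75311768*t^4*w^3 + 55962964*t^5*w^2 +
    25780424*t^6*w + 5442664*t^7) + r^7 * (5861416*w^6 + 27991190*t*w^5 + 39964728*t^2*w^4 +
    53107324*t^3*w^3 + 53199360*t^4*w^2 + 26761400*t^5*w + 5906296*t^6) + r^8 * (2641516*w^5 +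
    37987146*t*w^4 + 41905804*t^2*w^3 + 38889184*t^3*w^2 + 23944072*t^4*w + 4752824*t^5) + r^9 *
    (383164*w^4 + 23158672*t*w^3 + 20342724*t^2*w^2 + 14813912*t^3*w + 2578648*t^4) + r^10 *
    (296800*w^3 + 5891220*t*w^2 + 5213336*t^2*w + 875392*t^3) + r^11 * (195568*w^2 + 796104*t*w
    + 169384*t^2) + r^12 * (15488*w + 15136*t)

theorem Qb1h_eq (r t w : ℝ) : Qb1h (r + t + w) r (r + t) = Qb1x r t w := by
  unfold Qb1h Qb1x
  ring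

theorem Qb1_pos {r c : ℝ} (hr : 0 < r) (ht : 0 < c - r) (hw : 0 ≤ 1 - c) :
    0 < Qb1h 1 r c := by
  have h := Qb1h_eq r (c - r) (1 - c)
  have e1 : r + (c - r) + (1 - c) = 1 := by ring
  have e2 : r + (c - r) = c := by ring
  rw [e1, e2] at h
  rw [h]
  unfold Qb1x
  positivity

/-- control polynomial, homogenised -/
def Qb2h (o r c : ℝ) : ℝ :=
    (3040*o^13 + 1440*o^12*c + 6080*o^11*c^2 + 2880*o^10*c^3 + (-6400)*o^9*c^4) + r *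
    ((-27120)*o^12 + (-9600)*o^11*c + (-52560)*o^10*c^2 + 80640*o^9*c^3 + 26400*o^8*c^4) + r^2 *
    (85248*o^11 + 45600*o^10*c + (-67152)*o^9*c^2 + (-390592)*o^8*c^3 + 145216*o^7*c^4 +
    7680*o^6*c^5 + (-6400)*o^5*c^6) + r^3 * (122208*o^10 + (-55584)*o^9*c + 1288000*o^8*c^2 +
    (-691520)*o^7*c^3 + (-345664)*o^6*c^4 + 97536*o^5*c^5 + 42240*o^4*c^6) + r^4 *
    ((-1671940)*o^9 + (-1324560)*o^8*c + 374072*o^7*c^2 + 3283536*o^6*c^3 + (-189348)*o^5*c^4 +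
    (-1018624)*o^4*c^5 + 77504*o^3*c^6) + r^5 * (7684976*o^8 + (-539408)*o^7*c +
    (-7399712)*o^6*c^2 + (-7782016)*o^5*c^3 + 8734832*o^4*c^4 + (-105456)*o^3*c^5 +
    (-485760)*o^2*c^6) + r^6 * ((-16649808)*o^7 + 3646720*o^6*c + 38033328*o^5*c^2 +
    (-18925376)*o^4*c^3 + (-12856480)*o^3*c^4 + 7735360*o^2*c^5 + (-846400)*o*c^6) + r^7 *
    (24703808*o^6 + (-19022592)*o^5*c + (-66160000)*o^4*c^2 + 97156928*o^3*c^3 +
    (-42695360)*o^2*c^4 + 5924800*o*c^5) + r^8 * ((-29518912)*o^5 + 84497408*o^4*c +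
    (-85330496)*o^3*c^2 + 35445760*o^2*c^3 + (-5078400)*o*c^4)

/-- expansion of `Qb2h` -/
def Qb2x (r t w : ℝ) : ℝ :=
    (3040*w^13 + 40960*t*w^12 + 260480*t^2*w^11 + 1034240*t^3*w^10 + 2847200*t^4*w^9 +
    5700480*t^5*w^8 + 8478720*t^6*w^7 + 9423360*t^7*w^6 + 7781280*t^8*w^5 + 4691200*t^9*w^4 +
    1997440*t^10*w^3 + 565760*t^11*w^2 + 94880*t^12*w + 7040*t^13) + r * (13840*w^12 +
    185920*t*w^11 + 1154640*t^2*w^10 + 4449440*t^3*w^9 + 11880960*t^4*w^8 + 23032320*t^5*w^7 +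
    32944800*t^6*w^6 + 34729920*t^7*w^5 + 26599440*t^8*w^4 + 14368960*t^9*w^3 + 5182480*t^10*w^2
    + 1118880*t^11*w + 109280*t^12) + r^2 * (10688*w^11 + 189888*t*w^10 + 1342608*t^2*w^9 +
    5642000*t^3*w^8 + 16187648*t^4*w^7 + 33185664*t^5*w^6 + 48864288*t^6*w^5 + 50983328*t^7*w^4
    + 36632000*t^8*w^3 + 17195328*t^9*w^2 + 4740816*t^10*w + 581840*t^11) + r^3 * (191696*w^10 +
    1892192*t*w^9 + 8932144*t^2*w^8 + 26278208*t^3*w^7 + 53446240*t^4*w^6 + 79031552*t^5*w^5 +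
    86121632*t^6*w^4 + 67617984*t^7*w^3 + 35981008*t^8*w^2 + 11511200*t^9*w + 1658416*t^10) +
    r^4 * (479884*w^9 + 3587708*t*w^8 + 14438888*t^2*w^7 + 39378120*t^3*w^6 + 75578620*t^4*w^5 +
    101553900*t^5*w^4 + 93414576*t^6*w^3 + 56071376*t^7*w^2 + 19800736*t^8*w + 3121600*t^9) +
    r^5 * (1802060*w^8 + 11444864*t*w^7 + 37035880*t^2*w^6 + 76340000*t^3*w^5 +
    107390012*t^4*w^4 + 105266560*t^5*w^3 + 69142064*t^6*w^2 + 26862208*t^7*w + 4543616*t^8) +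
    r^6 * (5000328*w^7 + 22597384*t*w^6 + 54619640*t^2*w^5 + 90743832*t^3*w^4 +
    100496576*t^4*w^3 + 71284224*t^5*w^2 + 30089408*t^6*w + 5580512*t^7) + r^7 * (5861416*w^6 +
    28902784*t*w^5 + 55638872*t^2*w^4 + 71442112*t^3*w^3 + 60255712*t^4*w^2 + 28242880*t^5*w +
    5612960*t^6) + r^8 * (2641516*w^5 + 28160860*t*w^4 + 41943280*t^2*w^3 + 38849424*t^3*w^2 +
    21320384*t^4*w + 4223296*t^5) + r^9 * (383164*w^4 + 16085056*t*w^3 + 17692960*t^2*w^2 +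
    11520352*t^3*w + 2188320*t^4) + r^10 * (296800*w^3 + 4483680*t*w^2 + 3754992*t^2*w +
    724176*t^3) + r^11 * (195568*w^2 + 561184*t*w + 137392*t^2) + r^12 * (15488*w + 11520*t)

theorem Qb2h_eq (r t w : ℝ) : Qb2h (r + t + w) r (r + t) = Qb2x r t w := by
  unfold Qb2h Qb2x
  ring

theorem Qb2_pos {r c : ℝ} (hr : 0 < r) (ht : 0 < c - r) (hw : 0 ≤ 1 - c) :
    0 < Qb2h 1 r c := by
  have h := Qb2h_eq r (c - r) (1 - c)
  have e1 : r + (c - r) + (1 - c) = 1 := by ring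
  have e2 : r + (c - r) = c := by ring
  rw [e1, e2] at h
  rw [h]
  unfold Qb2x
  positivity

theorem P_eq (r q c : ℝ) :
    (c - r) * Pp r q c = (c - r - q) * Pb0h 1 r c + q * Pb1h 1 r c := by
  unfold Pp Pb0h Pb1h
  ring

theorem Q_eq (r q c : ℝ) :
    (c - r) ^ 2 * (4 * Pp r q c * Ep r q c - Op r q c ^ 2)
      = (c - r - q) ^ 2 * Qb0h 1 r c + 2 * q * (c - r - q) * Qb1h 1 r c + q ^ 2 * Qb2h 1 r c := by
  unfold Pp Ep Op Qb0h Qb1h Qb2h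
  ring

theorem P_pos {r q c : ℝ} (hr : 0 < r) (hq : 0 < q) (h : r + q ≤ c) (hc : c ≤ 1) :
    0 < Pp r q c := by
  have ht : 0 < c - r := by linarith
  have hw : 0 ≤ 1 - c := by linarith
  have h0 := Pb0_pos hr ht hw
  have h1 := Pb1_pos hr ht hw
  have h2 : 0 < (c - r) * Pp r q c := by
    rw [P_eq]
    have : 0 ≤ c - r - q := by linarith
    positivity
  exact (pos_iff_pos_of_mul_pos h2).mp ht

theorem Q_pos {r q c : ℝ} (hr : 0 < r) (hq : 0 < q) (h : r + q ≤ c) (hc : c ≤ 1) :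
    Op r q c ^ 2 < 4 * Pp r q c * Ep r q c := by
  have ht : 0 < c - r := by linarith
  have hw : 0 ≤ 1 - c := by linarith
  have h0 := Qb0_pos hr ht hw
  have h1 := Qb1_pos hr ht hw
  have h2 := Qb2_pos hr ht hw
  have h3 : 0 < (c - r) ^ 2 * (4 * Pp r q c * Ep r q c - Op r q c ^ 2) := by
    rw [Q_eq]
    have : 0 ≤ c - r - q := by linarith
    positivity
  have h4 := (pos_iff_pos_of_mul_pos h3).mp (by positivity)
  linarith

end FBM4
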