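import Pool.Agent.Helper81.FBMProfile

/-!
# Derivatives in polar coordinates about the exterior point

`HasJet y x f a b` says that `f` is differentiable at `x` with derivative `a` in the direction of
the dilation about `y` and derivative `b` in the angular variable `c`.
-/

open MeasureTheory Module Metric
open scoped RealInnerProductSpace ContDiff Topology

namespace FBM

variable {n : ℕ}

/-- `f` has logarithmic radial derivative `a` and angular derivative `b` at `x`, in polar
coordinates about `y`. -/
def HasJet (y x : E n) (f : E n → ℝ) (a b : ℝ) : Prop :=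
  HasFDerivAt f (a • om1 x y ‖x - y‖
    + b • (-(cf y x) • om1 x y ‖x - y‖ - om2 y ‖y‖ ‖x - y‖)) x

variable {y x : E n} {f g : E n → ℝ} {a b a' b' : ℝ}

theorem HasJet.congr (h : HasJet y x f a b) (ha : a = a') (hb : b = b') : HasJet y x f a' b' := by
  subst ha
  subst hb
  exact h

theorem HasJet.const (k : ℝ) : HasJet y x (fun _ => k) 0 0 := by
  unfold HasJet
  simpa using hasFDerivAt_const k x

theorem HasJet.r (hx : 0 < ‖x - y‖) : HasJet y x (fun z => rf y z) (-(rf y x)) 0 := by
  unfold HasJet
  simpa using hasFDerivAt_r y x hx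

theorem HasJet.q (hx : 0 < ‖x - y‖) : HasJet y x (fun z => qf y z) (qf y x) 0 := by
  unfold HasJet
  simpa using hasFDerivAt_q y x hx

theorem HasJet.c (hy : 0 < ‖y‖) (hx : 0 < ‖x - y‖) : HasJet y x (fun z => cf y z) 0 1 := by
  unfold HasJet
  simpa using hasFDerivAt_c y x hy hx

theorem HasJet.add (hf : HasJet y x f a b) (hg : HasJet y x g a' b') :
    HasJet y x (fun z => f z + g z) (a + a') (b + b') := by
  refine (HasFDerivAt.add hf hg).congr_fderiv ?_
  ext v
  simp only [_root_.smul_apply, smul_eq_mul, _root_.sub_apply, _root_.add_apply]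
  ring

theorem HasJet.sub (hf : HasJet y x f a b) (hg : HasJet y x g a' b') :
    HasJet y x (fun z => f z - g z) (a - a') (b - b') := by
  refine (HasFDerivAt.sub hf hg).congr_fderiv ?_
  ext v
  simp only [_root_.smul_apply, smul_eq_mul, _root_.sub_apply, _root_.add_apply]
  ring

theorem HasJet.mul (hf : HasJet y x f a b) (hg : HasJet y x g a' b') :
    HasJet y x (fun z => f z * g z) (a * g x + f x * a') (b * g x + f x * b') := by
  refine (HasFDerivAt.mul hf hg).congr_fderiv ?_
  ext v
  simp only [_root_.smul_apply, smul_eq_mul, _root_.sub_apply, _root_.add_apply]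
  ring

theorem HasJet.pow (hf : HasJet y x f a b) (m : ℕ) :
    HasJet y x (fun z => f z ^ m) (m * f x ^ (m - 1) * a) (m * f x ^ (m - 1) * b) := by
  refine (HasFDerivAt.pow hf m).congr_fderiv ?_
  ext v
  simp only [_root_.smul_apply, smul_eq_mul, _root_.sub_apply, _root_.add_apply, nsmul_eq_mul]
  ring

theorem HasJet.inv (hf : HasJet y x f a b) (h0 : f x ≠ 0) :
    HasJet y x (fun z => (f z)⁻¹) (-a / f x ^ 2) (-b / f x ^ 2) := by
  refine ((hasDerivAt_inv h0).comp_hasFDerivAt x hf).congr_fderiv ?_
  ext v
  simp only [_root_.smul_apply, smul_eq_mul, _root_.sub_apply, _root_.add_apply]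
  field_simp
  ring

end FBM
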