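import Pool.Agent.Helper74.FB.Refl

/-!
# A fast version of the box check

The rows of a homogeneous form are stored as the value of the row at a large integer `X`; the
entries are recovered as the digits in base `X`, because a bound of their absolute values is known.
-/

noncomputable section

namespace FBR

/-- Evaluation at an integer. -/
def evz (X : ℤ) : List ℤ → ℤ
  | [] => 0
  | a :: l => a + X * evz X l

theorem evz_add (X : ℤ) : ∀ l m : List ℤ, evz X (addL Int.add l m) = evz X l + evz X m
  | [], m => by simp [addL, evz]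
  | a :: l, [] => by simp [addL, evz]
  | a :: l, b :: m => by
    have e : Int.add a b = a + b := rfl
    simp only [addL, evz, evz_add X l m, e]
    ring

theorem evz_map_mul (X a : ℤ) : ∀ l : List ℤ, evz X (l.map (Int.mul a)) = a * evz X l
  | [] => by simp [evz]
  | b :: l => by
    have e : Int.mul a b = a * b := rfl
    simp only [List.map_cons, evz, evz_map_mul X a l, e]
    ring

theorem evz_append_zero (X : ℤ) : ∀ l : List ℤ, evz X (l ++ [0]) = evz X l
  | [] => by simp [evz]
  | b :: l => by
    simp only [List.cons_append, evz, evz_append_zero X l]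

theorem evz_mulLin (X α β : ℤ) (h : List ℤ) :
    evz X (mulLin α β h) = (α + β * X) * evz X h := by
  unfold mulLin
  rw [evz_add, evz_append_zero, evz_map_mul]
  simp only [evz, evz_map_mul]
  ring

/-- The values at `X` of `toH α β N l` and `npow N l.length`. -/
def hk (A B : ℤ) : List ℤ → ℤ × ℤ
  | [] => (0, 1)
  | a :: l => (Int.add (Int.mul a (hk A B l).2) (Int.mul A (hk A B l).1), Int.mul B (hk A B l).2)

theorem hk_eq (X α β N : ℤ) : ∀ l : List ℤ, hk (α + β * X) (N + N * X) l
    = (evz X (toH α β N l), evz X (npow N l.length))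
  | [] => by simp [hk, toH, npow, evz]
  | a :: l => by
    rw [hk, hk_eq X α β N l]
    simp only [toH, evz_add, evz_map_mul, evz_mulLin, List.length_cons, npow]
    rfl

/-- The sum of the absolute values. -/
def nrm : List ℤ → ℕ
  | [] => 0
  | a :: l => a.natAbs + nrm l

theorem nrm_add : ∀ l m : List ℤ, nrm (addL Int.add l m) ≤ nrm l + nrm m
  | [], m => by simp [addL, nrm]
  | a :: l, [] => by simp [addL, nrm]
  | a :: l, b :: m => by
    have e : Int.add a b = a + b := rfl
    have h1 := nrm_add l m
    have h2 := Int.natAbs_add_le a b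
    simp only [addL, nrm, e]
    omega

theorem nrm_map_mul (a : ℤ) : ∀ l : List ℤ, nrm (l.map (Int.mul a)) = a.natAbs * nrm l
  | [] => by simp [nrm]
  | b :: l => by
    have e : Int.mul a b = a * b := rfl
    simp only [List.map_cons, nrm, nrm_map_mul a l, e, Int.natAbs_mul]
    ring

theorem nrm_append_zero : ∀ l : List ℤ, nrm (l ++ [0]) = nrm l
  | [] => by simp [nrm]
  | b :: l => by
    simp only [List.cons_append, nrm, nrm_append_zero l]

theorem nrm_mulLin (α β : ℤ) (h : List ℤ) :
    nrm (mulLin α β h) ≤ (α.natAbs + β.natAbs) * nrm h := by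
  unfold mulLin
  refine (nrm_add _ _).trans ?_
  rw [nrm_append_zero, nrm_map_mul]
  simp only [nrm, nrm_map_mul, Int.natAbs_zero, zero_add]
  exact (add_mul _ _ _).ge

theorem nrm_npow (N : ℤ) : ∀ n, nrm (npow N n) ≤ (2 * N.natAbs) ^ n
  | 0 => by simp [npow, nrm]
  | n + 1 => by
    rw [npow, pow_succ]
    refine (nrm_mulLin _ _ _).trans ?_
    rw [← two_mul, mul_comm]
    exact Nat.mul_le_mul_right _ (nrm_npow N n)

theorem nrm_toH {α β N : ℤ} (h : α.natAbs + β.natAbs ≤ 2 * N.natAbs) (hN : 0 < N) :
    ∀ l : List ℤ, nrm (toH α β N l) ≤ (2 * N.natAbs) ^ l.length * nrm l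
  | [] => by simp [toH, nrm]
  | a :: l => by
    have hN1 : 1 ≤ 2 * N.natAbs := by omega
    have ih := nrm_toH h hN l
    rw [toH]
    refine (nrm_add _ _).trans ?_
    rw [nrm_map_mul]
    have h1 := nrm_npow N l.length
    have h2 := nrm_mulLin α β (toH α β N l)
    have h3 : (α.natAbs + β.natAbs) * nrm (toH α β N l)
        ≤ (2 * N.natAbs) * ((2 * N.natAbs) ^ l.length * nrm l) := Nat.mul_le_mul h ih
    have h4 : a.natAbs * nrm (npow N l.length)
        ≤ a.natAbs * ((2 * N.natAbs) * (2 * N.natAbs) ^ l.length) := by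
      refine Nat.mul_le_mul_left _ (h1.trans ?_)
      exact Nat.le_mul_of_pos_left _ hN1
    simp only [nrm, List.length_cons, pow_succ]
    calc a.natAbs * nrm (npow N l.length) + nrm (mulLin α β (toH α β N l))
        ≤ a.natAbs * ((2 * N.natAbs) * (2 * N.natAbs) ^ l.length)
          + (2 * N.natAbs) * ((2 * N.natAbs) ^ l.length * nrm l) :=
          Nat.add_le_add h4 (h2.trans h3)
      _ = (2 * N.natAbs) ^ l.length * (2 * N.natAbs) * (a.natAbs + nrm l) := by ring

theorem natAbs_getD_le : ∀ (l : List ℤ) (i : ℕ), (l.getD i 0).natAbs ≤ nrm l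
  | [], i => by simp
  | a :: l, 0 => by
    simp only [List.getD_cons_zero, nrm]
    omega
  | a :: l, i + 1 => by
    have := natAbs_getD_le l i
    simp only [List.getD_cons_succ, nrm]
    omega

/-- The sum of the absolute values of all entries. -/
def nrm2 : List (List ℤ) → ℕ
  | [] => 0
  | p :: l => nrm p + nrm2 l

theorem nrm2_tail : ∀ m : List (List ℤ), nrm2 (m.map List.tail) ≤ nrm2 m
  | [] => le_rfl
  | p :: m => by
    have h := nrm2_tail m
    have h2 : nrm p.tail ≤ nrm p := by
      cases p with
      | nil => exact le_rfl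
      | cons a p =>
        simp only [List.tail_cons, nrm]
        omega
    simp only [List.map_cons, nrm2]
    omega

theorem nrm_heads : ∀ m : List (List ℤ), nrm (m.map fun p => p.getD 0 0) ≤ nrm2 m
  | [] => le_rfl
  | p :: m => by
    have h := nrm_heads m
    have h2 := natAbs_getD_le p 0
    simp only [List.map_cons, nrm, nrm2]
    omega

theorem getD_addL : ∀ (l m : List ℤ) (i : ℕ),
    (addL Int.add l m).getD i 0 = l.getD i 0 + m.getD i 0
  | [], m, i => by simp [addL]
  | a :: l, [], i => by simp [addL]
  | a :: l, b :: m, 0 => by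
    simp only [addL, List.getD_cons_zero]
    rfl
  | a :: l, b :: m, i + 1 => by
    simp only [addL, List.getD_cons_succ]
    exact getD_addL l m i

theorem getD_map_mul (a : ℤ) : ∀ (l : List ℤ) (i : ℕ),
    (l.map (Int.mul a)).getD i 0 = a * l.getD i 0
  | [], i => by simp
  | b :: l, 0 => by
    simp only [List.map_cons, List.getD_cons_zero]
    rfl
  | b :: l, i + 1 => by
    simp only [List.map_cons, List.getD_cons_succ]
    exact getD_map_mul a l i

theorem getD_append_zero : ∀ (l : List ℤ) (i : ℕ), (l ++ [0]).getD i 0 = l.getD i 0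
  | [], 0 => by simp
  | [], i + 1 => by simp
  | b :: l, 0 => by simp
  | b :: l, i + 1 => by
    simp only [List.cons_append, List.getD_cons_succ]
    exact getD_append_zero l i

theorem toH_getD_zero (α β N a : ℤ) (l : List ℤ) :
    (toH α β N (a :: l)).getD 0 0
      = a * (npow N l.length).getD 0 0 + α * (toH α β N l).getD 0 0 := by
  rw [toH, getD_addL, getD_map_mul, mulLin, getD_addL, getD_append_zero, getD_map_mul]
  simp

theorem toH_getD_succ (α β N a : ℤ) (l : List ℤ) (i : ℕ) :
    (toH α β N (a :: l)).getD (i + 1) 0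
      = a * (npow N l.length).getD (i + 1) 0 + (α * (toH α β N l).getD (i + 1) 0
        + β * (toH α β N l).getD i 0) := by
  rw [toH, getD_addL, getD_map_mul, mulLin, getD_addL, getD_append_zero, getD_map_mul,
    List.getD_cons_succ, getD_map_mul]

theorem toH_linear {ι : Type} (α β N X : ℤ) (f g : ι → ℤ) : ∀ (m : List ι) (i : ℕ),
    (toH α β N (m.map fun p => f p + X * g p)).getD i 0
      = (toH α β N (m.map f)).getD i 0 + X * (toH α β N (m.map g)).getD i 0
  | [], i => by simp [toH]
  | p :: m, 0 => by
    simp only [List.map_cons, toH_getD_zero, toH_linear α β N X f g m 0, List.length_map]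
    ring
  | p :: m, i + 1 => by
    simp only [List.map_cons, toH_getD_succ, toH_linear α β N X f g m i,
      toH_linear α β N X f g m (i + 1), List.length_map]
    ring

/-- All `d` digits in base `X` are smaller than `X / 2`, and there are no others. -/
def digOK (X : ℕ) : ℕ → ℕ → Bool
  | 0, y => Nat.beq y 0
  | d + 1, y => Nat.blt (2 * (y % X)) X && digOK X d (y / X)

/-- The same, for integers. -/
def digZ (X d : ℕ) : ℤ → Bool
  | .ofNat y => digOK X d y
  | .negSucc _ => false

theorem digZ_step {X d : ℕ} {h t : ℤ} (hX : 0 < X) (hb : 2 * h.natAbs < X)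
    (hd : digZ X (d + 1) (h + X * t) = true) : 0 ≤ h ∧ digZ X d t = true := by
  obtain ⟨y, hy⟩ : ∃ y : ℕ, h + X * t = y := by
    cases hc : h + (X : ℤ) * t with
    | ofNat y => exact ⟨y, rfl⟩
    | negSucc y => rw [hc] at hd; simp [digZ] at hd
  rw [hy] at hd
  have hd' : digOK X (d + 1) y = true := hd
  simp only [digOK, Bool.and_eq_true, Nat.blt_eq] at hd'
  obtain ⟨h1, h2⟩ := hd'
  have hXz : (0 : ℤ) < X := by exact_mod_cast hX
  have hmod : (y : ℤ) = (y % X : ℕ) + X * (y / X : ℕ) := by
    exact_mod_cast (Nat.mod_add_div y X).symm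
  have h1z : 2 * ((y % X : ℕ) : ℤ) < X := by exact_mod_cast h1
  have h0z : 0 ≤ ((y % X : ℕ) : ℤ) := Int.natCast_nonneg _
  have hbz : 2 * |h| < X := by
    rw [Int.abs_eq_natAbs]
    exact_mod_cast hb
  have habs := abs_lt.mp (show |2 * h| < (X : ℤ) by rwa [abs_mul, abs_two])
  have key : (X : ℤ) * (t - (y / X : ℕ)) = (y % X : ℕ) - h := by linarith
  have ht : t - (y / X : ℕ) = 0 := by
    by_contra hne
    rcases lt_or_gt_of_ne hne with hlt | hgt
    · have : t - (y / X : ℕ) ≤ -1 := by omega
      nlinarith
    · have : 1 ≤ t - (y / X : ℕ) := by omega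
      nlinarith
  rw [ht, mul_zero] at key
  refine ⟨by linarith, ?_⟩
  have : t = ((y / X : ℕ) : ℤ) := by linarith
  rw [this]
  exact h2

theorem digits_spec {α β N : ℤ} (hαβ : α.natAbs + β.natAbs ≤ 2 * N.natAbs) (hN : 0 < N) {X : ℕ} :
    ∀ (d : ℕ) (m : List (List ℤ)), 2 * ((2 * N.natAbs) ^ m.length * nrm2 m) < X →
    (∀ i < m.length, digZ X d ((toH α β N (m.map (evz X))).getD i 0) = true) →
    ∀ k < d, ∀ i < m.length, 0 ≤ (toH α β N (m.map fun p => p.getD k 0)).getD i 0
  | 0, _, _, _, k, hk => absurd hk (Nat.not_lt_zero k)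
  | d + 1, m, hX, h, k, hk => by
    have hX0 : 0 < X := by omega
    have e : m.map (evz X) = m.map fun p => p.getD 0 0 + X * evz X p.tail := by
      refine List.map_congr_left fun p _ => ?_
      cases p with
      | nil => simp [evz]
      | cons a p => simp [evz]
    rw [e] at h
    have hb : ∀ i, 2 * ((toH α β N (m.map fun p => p.getD 0 0)).getD i 0).natAbs < X := by
      intro i
      have h1 := natAbs_getD_le (toH α β N (m.map fun p => p.getD 0 0)) i
      have h2 := nrm_toH hαβ hN (m.map fun p => p.getD 0 0)
      rw [List.length_map] at h2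
      have h3 : (2 * N.natAbs) ^ m.length * nrm (m.map fun p => p.getD 0 0)
          ≤ (2 * N.natAbs) ^ m.length * nrm2 m := Nat.mul_le_mul_left _ (nrm_heads m)
      omega
    have hstep : ∀ i < m.length, 0 ≤ (toH α β N (m.map fun p => p.getD 0 0)).getD i 0 ∧
        digZ X d ((toH α β N (m.map fun p => evz X p.tail)).getD i 0) = true := by
      intro i hi
      have h1 := h i hi
      rw [toH_linear] at h1
      exact digZ_step hX0 (hb i) h1
    cases k with
    | zero => exact fun i hi => (hstep i hi).1
    | succ k =>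
      have hlen : (m.map List.tail).length = m.length := List.length_map _
      have ih := digits_spec hαβ hN (X := X) d (m.map List.tail) (by
        rw [hlen]
        refine lt_of_le_of_lt ?_ hX
        exact Nat.mul_le_mul_left _ (Nat.mul_le_mul_left _ (nrm2_tail m))) (by
        intro i hi
        rw [hlen] at hi
        rw [List.map_map]
        exact (hstep i hi).2) k (Nat.lt_of_succ_lt_succ hk)
      rw [hlen, List.map_map] at ih
      have e2 : (m.map fun p => p.getD (k + 1) 0) = m.map ((fun p => p.getD k 0) ∘ List.tail) := by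
        refine List.map_congr_left fun p _ => ?_
        cases p with
        | nil => simp
        | cons a p => simp
      rw [e2]
      exact ih

theorem allNonneg_of_getD : ∀ l : List ℤ, (∀ i < l.length, 0 ≤ l.getD i 0) → allNonneg l = true
  | [], _ => rfl
  | a :: l, h => by
    simp only [allNonneg, List.all_cons, Bool.and_eq_true, decide_eq_true_eq]
    refine ⟨by simpa using h 0 (by simp), ?_⟩
    have := allNonneg_of_getD l fun i hi => by
      have := h (i + 1) (by simpa using hi)
      simpa using this
    simpa only [allNonneg] using this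

/-- The fast check on a box. -/
def checkBoxK (X d : ℕ) (α β N α' β' N' : ℤ) (l : List (List ℤ)) : Bool :=
  (Nat.ble (α.natAbs + β.natAbs) (2 * N.natAbs) && Nat.ble (α'.natAbs + β'.natAbs) (2 * N'.natAbs))
  && (Nat.blt (2 * ((2 * N'.natAbs) ^ l.length * ((2 * N.natAbs) ^ d * nrm2 l))) X
  && ((toHp α' β' N' (l.map fun p => (hk (Int.add α (Int.mul β X)) (Int.add N (Int.mul N X))
    (pad d p)).1)).1.all (digZ X d)))

theorem nrm_pad (d : ℕ) : ∀ l : List ℤ, nrm (pad d l) = nrm l := by
  intro l
  have hr : ∀ m : ℕ, nrm (List.replicate m 0) = 0 := fun m => by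
    induction m with
    | zero => rfl
    | succ m ih => simp [List.replicate_succ, nrm, ih]
  unfold pad
  generalize d - l.length = m
  induction l with
  | nil => simpa [nrm] using hr m
  | cons a l ih => simp only [List.cons_append, nrm, ih]

theorem checkBoxK_spec {X d : ℕ} {α β N α' β' N' : ℤ} {l : List (List ℤ)} (hN : 0 < N)
    (hN' : 0 < N') (hlen : ∀ p ∈ l, p.length ≤ d)
    (h : checkBoxK X d α β N α' β' N' l = true) : checkBox d α β N α' β' N' l = true := by
  simp only [checkBoxK, Bool.and_eq_true, Nat.ble_eq, Nat.blt_eq, toHp_eq] at h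
  obtain ⟨⟨ha, ha'⟩, hX, hd⟩ := h
  set m := l.map fun p => toH α β N (pad d p) with hm
  have hml : m.length = l.length := by rw [hm, List.length_map]
  have hpad : ∀ p ∈ l, (pad d p).length = d := by
    intro p hp
    have := hlen p hp
    simp only [pad, List.length_append, List.length_replicate]
    omega
  have hn2 : nrm2 m ≤ (2 * N.natAbs) ^ d * nrm2 l := by
    rw [hm]
    clear hX hd hm hml m
    induction l with
    | nil => simp [nrm2]
    | cons p l ih =>
      have ih' := ih (fun p hp => hlen p (by simp [hp])) (fun p hp => hpad p (by simp [hp]))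
      have h1 := nrm_toH ha hN (pad d p)
      rw [nrm_pad, hpad p (by simp)] at h1
      simp only [List.map_cons, nrm2]
      rw [Nat.mul_add]
      omega
  have hmap : (l.map fun p => (hk (Int.add α (Int.mul β X)) (Int.add N (Int.mul N X))
      (pad d p)).1) = m.map (evz X) := by
    rw [hm, List.map_map]
    refine List.map_congr_left fun p _ => ?_
    have := hk_eq X α β N (pad d p)
    have e1 : Int.add α (Int.mul β X) = α + β * X := rfl
    have e2 : Int.add N (Int.mul N X) = N + N * X := rfl
    rw [e1, e2, this]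
    rfl
  rw [hmap] at hd
  have hX' : 2 * ((2 * N'.natAbs) ^ m.length * nrm2 m) < X := by
    refine lt_of_le_of_lt ?_ hX
    rw [hml]
    exact Nat.mul_le_mul_left _ (Nat.mul_le_mul_left _ hn2)
  have hspec := digits_spec ha' hN' d m hX' (by
    intro i hi
    rw [List.all_eq_true] at hd
    refine hd _ ?_
    have hi' : i < (toH α' β' N' (m.map (evz X))).length := by
      rw [length_toH, List.length_map]
      exact hi
    rw [List.getD_eq_getElem _ _ hi']
    exact List.getElem_mem hi')
  have hmm : (l.map fun p => (toHp α β N (pad d p)).1) = m := by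
    rw [hm]
    refine List.map_congr_left fun p _ => ?_
    rw [toHp_eq]
  rw [checkBox, hmm]
  -- the columns
  have hcols : ∀ (d : ℕ) (m : List (List ℤ)), (∀ k < d, ∀ i < m.length,
      0 ≤ (toH α' β' N' (m.map fun p => p.getD k 0)).getD i 0) →
      checkCols α' β' N' d m = true := by
    intro d
    induction d with
    | zero => intro m _; rfl
    | succ d ih =>
      intro m hm
      simp only [checkCols, Bool.and_eq_true, toHp_eq]
      refine ⟨?_, ?_⟩
      · have e : (m.map fun p => p.headD 0) = m.map fun p => p.getD 0 0 := by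
          refine List.map_congr_left fun p _ => ?_
          cases p <;> rfl
        rw [e]
        refine allNonneg_of_getD _ fun i hi => hm 0 (Nat.succ_pos d) i ?_
        rwa [length_toH, List.length_map] at hi
      · refine ih _ fun k hk i hi => ?_
        have h1 := hm (k + 1) (Nat.succ_lt_succ hk) i (by simpa using hi)
        rw [List.map_map]
        have e : (m.map fun p => p.getD (k + 1) 0)
            = m.map ((fun p => p.getD k 0) ∘ List.tail) := by
          refine List.map_congr_left fun p _ => ?_
          cases p with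
          | nil => simp
          | cons a p => simp
        rw [← e]
        exact h1
  exact hcols d m hspec

/-- The fast check along a subdivision. -/
def checkTreeK (X d : ℕ) (l : List (List ℤ)) : Tree → ℤ → ℤ → ℤ → ℤ → ℤ → ℤ → Bool
  | .leaf, α, β, N, α', β', N' => checkBoxK X d α β N α' β' N' l
  | .sr a b, α, β, N, α', β', N' =>
    checkTreeK X d l a (2 * α) (α + β) (2 * N) α' β' N'
      && checkTreeK X d l b (α + β) (2 * β) (2 * N) α' β' N'
  | .sg a b, α, β, N, α', β', N' =>
    checkTreeK X d l a α β N (2 * α') (α' + β') (2 * N')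
      && checkTreeK X d l b α β N (α' + β') (2 * β') (2 * N')

theorem checkTreeK_spec {X d : ℕ} {l : List (List ℤ)} (hlen : ∀ p ∈ l, p.length ≤ d) :
    ∀ (t : Tree) (α β N α' β' N' : ℤ), 0 < N → 0 < N' →
    checkTreeK X d l t α β N α' β' N' = true → checkTree d l t α β N α' β' N' = true
  | .leaf, α, β, N, α', β', N', hN, hN', h => checkBoxK_spec hN hN' hlen h
  | .sr a b, α, β, N, α', β', N', hN, hN', h => by
    simp only [checkTreeK, checkTree, Bool.and_eq_true] at h ⊢
    exact ⟨checkTreeK_spec hlen a _ _ _ _ _ _ (by linarith) hN' h.1,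
      checkTreeK_spec hlen b _ _ _ _ _ _ (by linarith) hN' h.2⟩
  | .sg a b, α, β, N, α', β', N', hN, hN', h => by
    simp only [checkTreeK, checkTree, Bool.and_eq_true] at h ⊢
    exact ⟨checkTreeK_spec hlen a _ _ _ _ _ _ hN (by linarith) h.1,
      checkTreeK_spec hlen b _ _ _ _ _ _ hN (by linarith) h.2⟩

/-- Equality of integers. -/
def eqI : ℤ → ℤ → Bool
  | .ofNat a, .ofNat b => Nat.beq a b
  | .negSucc a, .negSucc b => Nat.beq a b
  | .ofNat _, .negSucc _ => false
  | .negSucc _, .ofNat _ => false

/-- Equality of lists. -/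
def eqL {α : Type} (e : α → α → Bool) : List α → List α → Bool
  | [], [] => true
  | a :: l, b :: m => e a b && eqL e l m
  | [], _ :: _ => false
  | _ :: _, [] => false

theorem eqI_spec : ∀ a b : ℤ, eqI a b = true → a = b
  | .ofNat a, .ofNat b, h => by
    rw [Nat.eq_of_beq_eq_true h]
  | .negSucc a, .negSucc b, h => by
    rw [Nat.eq_of_beq_eq_true h]
  | .ofNat _, .negSucc _, h => by simp [eqI] at h
  | .negSucc _, .ofNat _, h => by simp [eqI] at h

theorem eqL_spec {α : Type} {e : α → α → Bool} (he : ∀ a b, e a b = true → a = b) :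
    ∀ l m : List α, eqL e l m = true → l = m
  | [], [], _ => rfl
  | a :: l, b :: m, h => by
    simp only [eqL, Bool.and_eq_true] at h
    rw [he a b h.1, eqL_spec he l m h.2]
  | [], _ :: _, h => by simp [eqL] at h
  | _ :: _, [], h => by simp [eqL] at h

/-- The length of all rows is at most `d`. -/
def lenOK (d : ℕ) (l : List (List ℤ)) : Bool := l.all fun p => Nat.ble p.length d

/-- The complete check, with the result `m` of the substitution given. -/
theorem check_of_parts {X d : ℕ} {t : Tree} {l m : List (List ℤ)}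
    (h1 : eqL (eqL eqI) (subst l) m = true) (h2 : lenOK d m = true)
    (h3 : checkTreeK X d m t 0 1 1 0 1 1 = true) {r c : ℝ}
    (hr : 0 ≤ r) (hrc : r ≤ c) (hc : c ≤ 1) : 0 ≤ ev2 r c l := by
  have e : subst l = m := eqL_spec (eqL_spec eqI_spec) _ _ h1
  refine check_sound (d := d) (t := t) ?_ hr hrc hc
  simp only [lenOK, List.all_eq_true, Nat.ble_eq] at h2
  simp only [check, Bool.and_eq_true, List.all_eq_true, Nat.ble_eq]
  rw [e]
  exact ⟨h2, checkTreeK_spec h2 t 0 1 1 0 1 1 one_pos one_pos h3⟩

end FBR
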