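import Mathlib

/-!
# Verified positivity of bivariate integer polynomials on the triangle `0 ≤ r ≤ c ≤ 1`

Polynomials are lists of coefficients.  `evL ev x l` evaluates the list `l` of coefficients (which
are evaluated by `ev`) at `x`.
-/

noncomputable section

namespace FBR

/-- Evaluation of a list polynomial; the coefficients are evaluated by `ev`. -/
def evL {α : Type} (ev : α → ℝ) (x : ℝ) : List α → ℝ
  | [] => 0
  | a :: l => ev a + x * evL ev x l

/-- Addition of list polynomials. -/
def addL {α : Type} (add : α → α → α) : List α → List α → List α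
  | [], m => m
  | a :: l, [] => a :: l
  | a :: l, b :: m => add a b :: addL add l m

/-- Multiplication of list polynomials. -/
def mulL {α : Type} (add mul : α → α → α) (zero : α) : List α → List α → List α
  | [], _ => []
  | a :: l, m => addL add (m.map (mul a)) (zero :: mulL add mul zero l m)

section Generic

variable {α : Type} {ev : α → ℝ} {add mul : α → α → α} {zero : α}

theorem evL_add (hadd : ∀ a b, ev (add a b) = ev a + ev b) (x : ℝ) :
    ∀ l m : List α, evL ev x (addL add l m) = evL ev x l + evL ev x m
  | [], m => by simp [addL, evL]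
  | a :: l, [] => by simp [addL, evL]
  | a :: l, b :: m => by
    simp only [addL, evL, hadd, evL_add hadd x l m]
    ring

theorem evL_map_mul (hmul : ∀ a b, ev (mul a b) = ev a * ev b) (x : ℝ) (a : α) :
    ∀ m : List α, evL ev x (m.map (mul a)) = ev a * evL ev x m
  | [] => by simp [evL]
  | b :: m => by
    simp only [List.map_cons, evL, hmul, evL_map_mul hmul x a m]
    ring

theorem evL_mul (hadd : ∀ a b, ev (add a b) = ev a + ev b)
    (hmul : ∀ a b, ev (mul a b) = ev a * ev b) (hzero : ev zero = 0) (x : ℝ) :
    ∀ l m : List α, evL ev x (mulL add mul zero l m) = evL ev x l * evL ev x m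
  | [], m => by simp [mulL, evL]
  | a :: l, m => by
    simp only [mulL, evL_add hadd, evL, evL_map_mul hmul, hzero,
      evL_mul hadd hmul hzero x l m]
    ring

theorem evL_map {β : Type} {ev' : β → ℝ} (f : α → β) (k : ℝ) (hf : ∀ a, ev' (f a) = k * ev a)
    (x : ℝ) : ∀ l : List α, evL ev' x (l.map f) = k * evL ev x l
  | [] => by simp [evL]
  | a :: l => by
    simp only [List.map_cons, evL, hf, evL_map f k hf x l]
    ring

end Generic

/-! ### Polynomials in one, two and three variables -/

/-- Evaluation of an integer. -/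
def ev0 (a : ℤ) : ℝ := (a : ℝ)
/-- Evaluation of a polynomial in `r`. -/
def ev1 (r : ℝ) (l : List ℤ) : ℝ := evL ev0 r l
/-- Evaluation of a polynomial in `c` over polynomials in `r`. -/
def ev2 (r c : ℝ) (l : List (List ℤ)) : ℝ := evL (ev1 r) c l
/-- Evaluation of a polynomial in `q` over polynomials in `r` and `c`. -/
def ev3 (r q c : ℝ) (l : List (List (List ℤ))) : ℝ := evL (ev2 r c) q l

/-- Addition. -/
def add1 (a b : List ℤ) : List ℤ := addL Int.add a b
/-- Multiplication. -/
def mul1 (a b : List ℤ) : List ℤ := mulL Int.add Int.mul 0 a b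
/-- Addition. -/
def add2 (a b : List (List ℤ)) : List (List ℤ) := addL add1 a b
/-- Multiplication. -/
def mul2 (a b : List (List ℤ)) : List (List ℤ) := mulL add1 mul1 [] a b
/-- Addition. -/
def add3 (a b : List (List (List ℤ))) : List (List (List ℤ)) := addL add2 a b
/-- Multiplication. -/
def mul3 (a b : List (List (List ℤ))) : List (List (List ℤ)) := mulL add2 mul2 [] a b

theorem ev0_add (a b : ℤ) : ev0 (Int.add a b) = ev0 a + ev0 b := Int.cast_add a b
theorem ev0_mul (a b : ℤ) : ev0 (Int.mul a b) = ev0 a * ev0 b := Int.cast_mul a b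

theorem ev1_add (r : ℝ) (a b : List ℤ) : ev1 r (add1 a b) = ev1 r a + ev1 r b :=
  evL_add ev0_add r a b
theorem ev1_mul (r : ℝ) (a b : List ℤ) : ev1 r (mul1 a b) = ev1 r a * ev1 r b :=
  evL_mul ev0_add ev0_mul (by simp [ev0]) r a b
theorem ev2_add (r c : ℝ) (a b : List (List ℤ)) : ev2 r c (add2 a b) = ev2 r c a + ev2 r c b :=
  evL_add (ev1_add r) c a b
theorem ev2_mul (r c : ℝ) (a b : List (List ℤ)) : ev2 r c (mul2 a b) = ev2 r c a * ev2 r c b :=
  evL_mul (ev1_add r) (ev1_mul r) (by simp [ev1, evL]) c a b
theorem ev3_add (r q c : ℝ) (a b : List (List (List ℤ))) :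
    ev3 r q c (add3 a b) = ev3 r q c a + ev3 r q c b :=
  evL_add (ev2_add r c) q a b
theorem ev3_mul (r q c : ℝ) (a b : List (List (List ℤ))) :
    ev3 r q c (mul3 a b) = ev3 r q c a * ev3 r q c b :=
  evL_mul (ev2_add r c) (ev2_mul r c) (by simp [ev2, evL]) q a b

/-! ### The substitution `c = r + (1 - r) g` -/

/-- Multiplication of a polynomial in `g` over polynomials in `r` by `r + (1 - r) g`. -/
def mulc (l : List (List ℤ)) : List (List ℤ) :=
  add2 (l.map fun p => 0 :: p) ([] :: l.map fun p => add1 p (0 :: p.map Int.neg))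

/-- The substitution. -/
def subst : List (List ℤ) → List (List ℤ)
  | [] => []
  | a :: l => add2 [a] (mulc (subst l))

theorem ev2_mulc (r g : ℝ) (l : List (List ℤ)) :
    ev2 r g (mulc l) = (r + (1 - r) * g) * ev2 r g l := by
  unfold mulc
  rw [ev2_add]
  have h1 : ev2 r g (l.map fun p => 0 :: p) = r * ev2 r g l := by
    refine evL_map _ r (fun a => ?_) g l
    simp [ev1, evL, ev0]
  have hneg : ∀ p : List ℤ, ev1 r (p.map Int.neg) = -1 * ev1 r p := fun p => by
    refine evL_map _ (-1) (fun a => ?_) r p
    have e : ((Int.neg a : ℤ) : ℝ) = -a := Int.cast_neg a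
    simp only [ev0, e]
    ring
  have h2 : ev2 r g (l.map fun p => add1 p (0 :: p.map Int.neg)) = (1 - r) * ev2 r g l := by
    refine evL_map _ (1 - r) (fun a => ?_) g l
    rw [ev1_add]
    have : ev1 r (0 :: a.map Int.neg) = r * ev1 r (a.map Int.neg) := by
      simp [ev1, evL, ev0]
    rw [this, hneg]
    ring
  have h3 : ev2 r g ([] :: l.map fun p => add1 p (0 :: p.map Int.neg))
      = g * ev2 r g (l.map fun p => add1 p (0 :: p.map Int.neg)) := by
    simp [ev2, evL, ev1]
  rw [h1, h3, h2]
  ring

theorem ev2_subst (r g : ℝ) : ∀ l : List (List ℤ),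
    ev2 r g (subst l) = ev2 r (r + (1 - r) * g) l
  | [] => by simp [subst, ev2, evL]
  | a :: l => by
    unfold subst
    rw [ev2_add, ev2_mulc, ev2_subst r g l]
    simp [ev2, evL]

/-! ### Bernstein form on subintervals -/

/-- Evaluation of the homogeneous form `∑ h_k x ^ k w ^ (d - k)`. -/
def hev (x w : ℝ) : List ℤ → ℝ
  | [] => 0
  | a :: l => (a : ℝ) * w ^ l.length + x * hev x w l

/-- Multiplication of a homogeneous form by `α w + β x`. -/
def mulLin (α β : ℤ) (h : List ℤ) : List ℤ :=
  addL Int.add (h.map (Int.mul α) ++ [0]) (0 :: h.map (Int.mul β))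

/-- The form `(N (x + w)) ^ n`. -/
def npow (N : ℤ) : ℕ → List ℤ
  | 0 => [1]
  | n + 1 => mulLin N N (npow N n)

/-- Conversion of a polynomial to the homogeneous form on `[α / N, β / N]`. -/
def toH (α β N : ℤ) : List ℤ → List ℤ
  | [] => []
  | a :: l => addL Int.add ((npow N l.length).map (Int.mul a)) (mulLin α β (toH α β N l))

theorem length_addL {α : Type} (add : α → α → α) : ∀ l m : List α, l.length = m.length →
    (addL add l m).length = l.length
  | [], [], _ => rfl
  | [], b :: m, h => by simp at h
  | a :: l, [], h => by simp at h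
  | a :: l, b :: m, h => by
    simp only [addL, List.length_cons]
    rw [length_addL add l m (by simpa using h)]

theorem length_mulLin (α β : ℤ) (h : List ℤ) : (mulLin α β h).length = h.length + 1 := by
  unfold mulLin
  rw [length_addL]
  · simp
  · simp

theorem length_npow (N : ℤ) : ∀ n, (npow N n).length = n + 1
  | 0 => rfl
  | n + 1 => by
    rw [npow, length_mulLin, length_npow N n]

theorem length_toH (α β N : ℤ) : ∀ l, (toH α β N l).length = l.length
  | [] => rfl
  | a :: l => by
    rw [toH, length_addL]
    · simp [length_npow]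
    · simp [length_npow, length_mulLin, length_toH α β N l]

theorem hev_add (x w : ℝ) : ∀ l m : List ℤ, l.length = m.length →
    hev x w (addL Int.add l m) = hev x w l + hev x w m
  | [], [], _ => by simp [addL, hev]
  | [], b :: m, h => by simp at h
  | a :: l, [], h => by simp at h
  | a :: l, b :: m, h => by
    have hl : l.length = m.length := by simpa using h
    have e : ((Int.add a b : ℤ) : ℝ) = a + b := Int.cast_add a b
    simp only [addL, hev, e, hev_add x w l m hl, length_addL Int.add l m hl, ← hl]
    ring

theorem hev_map_mul (x w : ℝ) (a : ℤ) : ∀ l : List ℤ,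
    hev x w (l.map (Int.mul a)) = a * hev x w l
  | [] => by simp [hev]
  | b :: l => by
    have e : ((Int.mul a b : ℤ) : ℝ) = a * b := Int.cast_mul a b
    simp only [List.map_cons, hev, e, hev_map_mul x w a l, List.length_map]
    ring

theorem hev_append_zero (x w : ℝ) : ∀ l : List ℤ, hev x w (l ++ [0]) = w * hev x w l
  | [] => by simp [hev]
  | b :: l => by
    simp only [List.cons_append, hev, hev_append_zero x w l, List.length_append,
      List.length_singleton, pow_succ]
    ring

theorem hev_mulLin (x w : ℝ) (α β : ℤ) (h : List ℤ) :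
    hev x w (mulLin α β h) = (α * w + β * x) * hev x w h := by
  unfold mulLin
  rw [hev_add _ _ _ _ (by simp), hev_append_zero, hev_map_mul]
  simp only [hev, hev_map_mul, Int.cast_zero, zero_mul, zero_add]
  ring

theorem hev_npow (x w : ℝ) (hxw : x + w = 1) (N : ℤ) : ∀ n, hev x w (npow N n) = (N : ℝ) ^ n
  | 0 => by simp [npow, hev]
  | n + 1 => by
    rw [npow, hev_mulLin, hev_npow x w hxw N n, pow_succ]
    have : w = 1 - x := by linarith
    rw [this]
    ring

theorem hev_toH (x w : ℝ) (hxw : x + w = 1) (α β N : ℤ) (r : ℝ)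
    (hr : (N : ℝ) * r = α * w + β * x) : ∀ l : List ℤ,
    (N : ℝ) * hev x w (toH α β N l) = (N : ℝ) ^ l.length * ev1 r l
  | [] => by simp [toH, hev, ev1, evL]
  | a :: l => by
    have ih := hev_toH x w hxw α β N r hr l
    have e : ev1 r (a :: l) = a + r * ev1 r l := rfl
    rw [toH, hev_add _ _ _ _ (by simp [length_npow, length_mulLin, length_toH]), hev_map_mul,
      hev_npow x w hxw, hev_mulLin, ← hr, e, List.length_cons, pow_succ]
    linear_combination r * N * ih

/-- All entries are nonnegative. -/
def allNonneg (l : List ℤ) : Bool := l.all fun a => decide (0 ≤ a)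

theorem hev_nonneg {x w : ℝ} (hx : 0 ≤ x) (hw : 0 ≤ w) : ∀ l : List ℤ, allNonneg l = true →
    0 ≤ hev x w l
  | [], _ => le_rfl
  | a :: l, h => by
    simp only [allNonneg, List.all_cons, Bool.and_eq_true, decide_eq_true_eq] at h
    have h1 : (0 : ℝ) ≤ a := by exact_mod_cast h.1
    have h2 := hev_nonneg hx hw l h.2
    simp only [hev]
    positivity

/-- Padding with zeros. -/
def pad (d : ℕ) (l : List ℤ) : List ℤ := l ++ List.replicate (d - l.length) 0

theorem ev1_replicate (r : ℝ) (m : ℕ) : ev1 r (List.replicate m 0) = 0 := by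
  induction m with
  | zero => simp [ev1, evL]
  | succ m ih =>
    simp only [List.replicate_succ, ev1, evL, ev0] at *
    simp [ih]

theorem ev1_pad (r : ℝ) (d : ℕ) : ∀ l : List ℤ, ev1 r (pad d l) = ev1 r l := by
  intro l
  unfold pad
  generalize d - l.length = m
  induction l with
  | nil => simpa [ev1, evL] using ev1_replicate r m
  | cons a l ih =>
    simp only [ev1, evL, List.cons_append] at *
    rw [ih]

theorem hev_eq_sum (x w : ℝ) : ∀ l : List ℤ,
    hev x w l = ∑ k ∈ Finset.range l.length, (l.getD k 0 : ℝ) * (x ^ k * w ^ (l.length - 1 - k))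
  | [] => by simp [hev]
  | a :: l => by
    rw [List.length_cons, Finset.sum_range_succ', hev, hev_eq_sum x w l, Finset.mul_sum, add_comm]
    simp only [List.getD_cons_zero, pow_zero, List.getD_cons_succ]
    congr 1
    · refine Finset.sum_congr rfl fun k hk => ?_
      have hk' := Finset.mem_range.mp hk
      have e : l.length + 1 - 1 - (k + 1) = l.length - 1 - k := by omega
      rw [e, pow_succ]
      ring
    · simp

/-- The pair of `toH α β N l` and `npow N l.length`, computed together. -/
def toHp (α β N : ℤ) : List ℤ → List ℤ × List ℤ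
  | [] => ([], [1])
  | a :: l => (addL Int.add ((toHp α β N l).2.map (Int.mul a)) (mulLin α β (toHp α β N l).1),
      mulLin N N (toHp α β N l).2)

theorem toHp_eq (α β N : ℤ) : ∀ l : List ℤ, toHp α β N l = (toH α β N l, npow N l.length)
  | [] => rfl
  | a :: l => by
    rw [toHp, toHp_eq α β N l]
    rfl

/-- The check of the columns: `d` columns are taken from the rows one after the other. -/
def checkCols (α' β' N' : ℤ) : ℕ → List (List ℤ) → Bool
  | 0, _ => true
  | d + 1, m => allNonneg (toHp α' β' N' (m.map fun p => p.headD 0)).1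
      && checkCols α' β' N' d (m.map List.tail)

/-- The check on the box `[α/N, β/N] × [α'/N', β'/N']`, for a polynomial in `g` over polynomials
in `r` of length at most `d`. -/
def checkBox (d : ℕ) (α β N α' β' N' : ℤ) (l : List (List ℤ)) : Bool :=
  checkCols α' β' N' d (l.map fun p => (toHp α β N (pad d p)).1)

theorem checkCols_spec (α' β' N' : ℤ) : ∀ (d : ℕ) (m : List (List ℤ)),
    checkCols α' β' N' d m = true → ∀ k < d,
      allNonneg (toH α' β' N' (m.map fun p => p.getD k 0)) = true
  | 0, _, _, k, hk => absurd hk (Nat.not_lt_zero k)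
  | d + 1, m, h, k, hk => by
    simp only [checkCols, Bool.and_eq_true, toHp_eq] at h
    cases k with
    | zero =>
      have e : (m.map fun p => p.getD 0 0) = m.map fun p => p.headD 0 := by
        refine List.map_congr_left fun p _ => ?_
        cases p <;> rfl
      rw [e]
      exact h.1
    | succ k =>
      have h2 := checkCols_spec α' β' N' d _ h.2 k (Nat.lt_of_succ_lt_succ hk)
      rw [List.map_map] at h2
      have e : (m.map fun p => p.getD (k + 1) 0) = m.map ((fun p => p.getD k 0) ∘ List.tail) := by
        refine List.map_congr_left fun p _ => ?_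
        cases p with
        | nil => simp
        | cons a p => simp
      rw [e]
      exact h2

theorem evL_sum {ι : Type} (s : Finset ι) (f : List ℤ → ι → ℤ) (cf : ι → ℝ) (g : ℝ) :
    ∀ l : List (List ℤ), evL (fun p => ∑ k ∈ s, (f p k : ℝ) * cf k) g l
      = ∑ k ∈ s, cf k * ev1 g (l.map fun p => f p k)
  | [] => by simp [evL, ev1]
  | p :: l => by
    simp only [evL, evL_sum s f cf g l, List.map_cons, ev1, ev0]
    rw [Finset.mul_sum, ← Finset.sum_add_distrib]
    refine Finset.sum_congr rfl fun k _ => ?_
    ring

theorem checkBox_sound {d : ℕ} {α β N α' β' N' : ℤ} {l : List (List ℤ)}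
    (hN : 0 < N) (hN' : 0 < N') (hlen : ∀ p ∈ l, p.length ≤ d)
    (h : checkBox d α β N α' β' N' l = true) {r g : ℝ}
    (hr0 : (α : ℝ) ≤ N * r) (hr1 : N * r ≤ β) (hg0 : (α' : ℝ) ≤ N' * g) (hg1 : N' * g ≤ β')
    (hαβ : α < β) (hαβ' : α' < β') : 0 ≤ ev2 r g l := by
  have hNr : (0 : ℝ) < N := by exact_mod_cast hN
  have hNr' : (0 : ℝ) < N' := by exact_mod_cast hN'
  have hab : (0 : ℝ) < β - α := by
    have : (α : ℝ) < β := by exact_mod_cast hαβ
    linarith
  have hab' : (0 : ℝ) < β' - α' := by
    have : (α' : ℝ) < β' := by exact_mod_cast hαβ'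
    linarith
  set x : ℝ := (N * r - α) / (β - α) with hx
  set w : ℝ := (β - N * r) / (β - α) with hw
  set x' : ℝ := (N' * g - α') / (β' - α') with hx'
  set w' : ℝ := (β' - N' * g) / (β' - α') with hw'
  have hx0 : 0 ≤ x := div_nonneg (by linarith) hab.le
  have hw0 : 0 ≤ w := div_nonneg (by linarith) hab.le
  have hx0' : 0 ≤ x' := div_nonneg (by linarith) hab'.le
  have hw0' : 0 ≤ w' := div_nonneg (by linarith) hab'.le
  have hxw : x + w = 1 := by
    rw [hx, hw]
    field_simp
    ring
  have hxw' : x' + w' = 1 := by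
    rw [hx', hw']
    field_simp
    ring
  have hr : (N : ℝ) * r = α * w + β * x := by
    rw [hx, hw]
    field_simp
    ring
  have hg : (N' : ℝ) * g = α' * w' + β' * x' := by
    rw [hx', hw']
    field_simp
    ring
  -- each coefficient
  have hpad : ∀ p ∈ l, (pad d p).length = d := by
    intro p hp
    have := hlen p hp
    simp only [pad, List.length_append, List.length_replicate]
    omega
  set m := l.map fun p => toH α β N (pad d p) with hm
  have hmm : (l.map fun p => (toHp α β N (pad d p)).1) = m := by
    rw [hm]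
    refine List.map_congr_left fun p _ => ?_
    rw [toHp_eq]
  rw [checkBox, hmm] at h
  have h := checkCols_spec α' β' N' d m h
  have h1 : (N : ℝ) * evL (hev x w) g m = (N : ℝ) ^ d * ev2 r g l := by
    rw [hm]
    have : ∀ l' : List (List ℤ), (∀ p ∈ l', (pad d p).length = d) →
        (N : ℝ) * evL (hev x w) g (l'.map fun p => toH α β N (pad d p))
          = (N : ℝ) ^ d * ev2 r g l' := by
      intro l' hl'
      induction l' with
      | nil => simp [evL, ev2]
      | cons p l' ih =>
        have e1 := hev_toH x w hxw α β N r hr (pad d p)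
        rw [ev1_pad, hl' p (by simp)] at e1
        have ih' := ih fun p hp => hl' p (by simp [hp])
        have e2 : ev2 r g (p :: l') = ev1 r p + g * ev2 r g l' := rfl
        rw [e2]
        simp only [List.map_cons, evL]
        linear_combination e1 + g * ih'
    exact this l hpad
  have hml : ∀ p ∈ m, p.length = d := by
    intro p hp
    rw [hm, List.mem_map] at hp
    obtain ⟨p', hp', rfl⟩ := hp
    rw [length_toH, hpad p' hp']
  have h2 : evL (hev x w) g m = ∑ k ∈ Finset.range d, (x ^ k * w ^ (d - 1 - k)) *
      ev1 g (m.map fun p => p.getD k 0) := by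
    rw [← evL_sum (Finset.range d) (fun p k => p.getD k 0) (fun k => x ^ k * w ^ (d - 1 - k)) g m]
    have : ∀ l' : List (List ℤ), (∀ p ∈ l', p.length = d) → evL (hev x w) g l'
        = evL (fun p => ∑ k ∈ Finset.range d, ((p.getD k 0 : ℤ) : ℝ)
            * (x ^ k * w ^ (d - 1 - k))) g l' := by
      intro l' hl'
      induction l' with
      | nil => simp [evL]
      | cons p l' ih =>
        simp only [evL]
        rw [ih fun p hp => hl' p (by simp [hp])]
        congr 1
        have := hev_eq_sum x w p
        rw [hl' p (by simp)] at this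
        exact this
    exact this m hml
  have h3 : 0 ≤ evL (hev x w) g m := by
    rw [h2]
    refine Finset.sum_nonneg fun k hk => mul_nonneg (by positivity) ?_
    have h4 := h k (Finset.mem_range.mp hk)
    have h5 := hev_nonneg hx0' hw0' _ h4
    have h6 := hev_toH x' w' hxw' α' β' N' g hg (m.map fun p => p.getD k 0)
    have h7 : 0 ≤ (N' : ℝ) ^ (m.map fun p => p.getD k 0).length
        * ev1 g (m.map fun p => p.getD k 0) := by
      rw [← h6]
      positivity
    exact (mul_nonneg_iff_of_pos_left (by positivity)).mp h7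
  have h8 : 0 ≤ (N : ℝ) ^ d * ev2 r g l := by
    rw [← h1]
    positivity
  exact (mul_nonneg_iff_of_pos_left (by positivity)).mp h8

/-- A subdivision of a box. -/
inductive Tree : Type
  | leaf : Tree
  | sr : Tree → Tree → Tree
  | sg : Tree → Tree → Tree

/-- The check along a subdivision. -/
def checkTree (d : ℕ) (l : List (List ℤ)) : Tree → ℤ → ℤ → ℤ → ℤ → ℤ → ℤ → Bool
  | .leaf, α, β, N, α', β', N' => checkBox d α β N α' β' N' l
  | .sr a b, α, β, N, α', β', N' =>
    checkTree d l a (2 * α) (α + β) (2 * N) α' β' N'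
      && checkTree d l b (α + β) (2 * β) (2 * N) α' β' N'
  | .sg a b, α, β, N, α', β', N' =>
    checkTree d l a α β N (2 * α') (α' + β') (2 * N')
      && checkTree d l b α β N (α' + β') (2 * β') (2 * N')

theorem checkTree_sound {d : ℕ} {l : List (List ℤ)} (hlen : ∀ p ∈ l, p.length ≤ d) {r g : ℝ} :
    ∀ (t : Tree) (α β N α' β' N' : ℤ), 0 < N → 0 < N' → α < β → α' < β' →
    checkTree d l t α β N α' β' N' = true →
    (α : ℝ) ≤ N * r → N * r ≤ β → (α' : ℝ) ≤ N' * g → N' * g ≤ β' → 0 ≤ ev2 r g l
  | .leaf, α, β, N, α', β', N', hN, hN', hab, hab', h, h1, h2, h3, h4 =>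
    checkBox_sound hN hN' hlen h h1 h2 h3 h4 hab hab'
  | .sr a b, α, β, N, α', β', N', hN, hN', hab, hab', h, h1, h2, h3, h4 => by
    simp only [checkTree, Bool.and_eq_true] at h
    rcases le_total (2 * (N * r)) ((α : ℝ) + β) with hc | hc
    · refine checkTree_sound hlen a (2 * α) (α + β) (2 * N) α' β' N' (by linarith) hN'
        (by linarith) hab' h.1 ?_ ?_ h3 h4
      · push_cast
        linarith
      · push_cast
        linarith
    · refine checkTree_sound hlen b (α + β) (2 * β) (2 * N) α' β' N' (by linarith) hN'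
        (by linarith) hab' h.2 ?_ ?_ h3 h4
      · push_cast
        linarith
      · push_cast
        linarith
  | .sg a b, α, β, N, α', β', N', hN, hN', hab, hab', h, h1, h2, h3, h4 => by
    simp only [checkTree, Bool.and_eq_true] at h
    rcases le_total (2 * (N' * g)) ((α' : ℝ) + β') with hc | hc
    · refine checkTree_sound hlen a α β N (2 * α') (α' + β') (2 * N') hN (by linarith)
        hab (by linarith) h.1 h1 h2 ?_ ?_
      · push_cast
        linarith
      · push_cast
        linarith
    · refine checkTree_sound hlen b α β N (α' + β') (2 * β') (2 * N') hN (by linarith)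
        hab (by linarith) h.2 h1 h2 ?_ ?_
      · push_cast
        linarith
      · push_cast
        linarith

/-- The complete check for a polynomial in `c` over polynomials in `r`. -/
def check (d : ℕ) (t : Tree) (l : List (List ℤ)) : Bool :=
  let m := subst l
  (m.all fun p => Nat.ble p.length d) && checkTree d m t 0 1 1 0 1 1

theorem check_sound {d : ℕ} {t : Tree} {l : List (List ℤ)} (h : check d t l = true) {r c : ℝ}
    (hr : 0 ≤ r) (hrc : r ≤ c) (hc : c ≤ 1) : 0 ≤ ev2 r c l := by
  simp only [check, Bool.and_eq_true, List.all_eq_true, Nat.ble_eq] at h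
  obtain ⟨g, hg0, hg1, hg⟩ : ∃ g : ℝ, 0 ≤ g ∧ g ≤ 1 ∧ c = r + (1 - r) * g := by
    rcases (hrc.trans hc).lt_or_eq with h1 | h1
    · have h2 : 0 < 1 - r := by linarith
      refine ⟨(c - r) / (1 - r), div_nonneg (by linarith) h2.le, ?_, ?_⟩
      · rw [div_le_one h2]
        linarith
      · field_simp
        ring
    · refine ⟨0, le_rfl, zero_le_one, ?_⟩
      rw [mul_zero, add_zero]
      linarith
  rw [hg, ← ev2_subst]
  exact checkTree_sound h.1 t 0 1 1 0 1 1 one_pos one_pos one_pos one_pos h.2
    (by simpa using hr) (by simpa using hrc.trans hc) (by simpa using hg0) (by simpa using hg1)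

end FBR
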